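import Mathlib

/-!
# Counting rooted forests with a prescribed set of roots
-/

set_option autoImplicit false

namespace Pool.Agent.MP_689404_al.X

open Finset

variable {X : Type} [Fintype X] [DecidableEq X]

open scoped Classical in
/-- Parent maps of the forests on `S` with set of roots `R`. -/
noncomputable def Fo (S R : Finset X) : Finset (X → X) :=
  univ.filter fun f => (∀ x, x ∉ S \ R → f x = x) ∧ (∀ x ∈ S, f x ∈ S) ∧
    ∀ x ∈ S, ∃ i, f^[i] x ∈ R

lemma mem_Fo {S R : Finset X} {f : X → X} :
    f ∈ Fo S R ↔ (∀ x, x ∉ S \ R → f x = x) ∧ (∀ x ∈ S, f x ∈ S) ∧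
      ∀ x ∈ S, ∃ i, f^[i] x ∈ R := by
  simp [Fo]

lemma card_fiber {S R I : Finset X} (hRS : R ⊆ S) (hI : I ⊆ S \ R) :
    ((Fo S R).filter fun f => ((S \ R).filter fun x => f x ∈ R) = I).card =
      R.card ^ I.card * (Fo (S \ R) I).card := by
  classical
  have h0 : (I.pi fun _ => R).card = R.card ^ I.card := by simp [Finset.card_pi]
  rw [← h0, ← Finset.card_product]
  refine Finset.card_nbij' (fun f => (fun x _ => f x, fun x => if x ∈ I then x else f x))
    (fun p x => if h : x ∈ I then p.1 x h else p.2 x) ?_ ?_ ?_ ?_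
  · intro f hf
    simp only [coe_filter, Set.mem_ofPred_eq, mem_Fo] at hf
    obtain ⟨⟨h1, h2, h3⟩, h4⟩ := hf
    have h5 : ∀ x, x ∈ I ↔ x ∈ S \ R ∧ f x ∈ R := fun x => by rw [← h4, mem_filter]
    have h6 : ∀ x ∈ S \ R, x ∉ I → f x ∈ S \ R := fun x hx hxI =>
      mem_sdiff.2 ⟨h2 x (mem_sdiff.1 hx).1, fun h => hxI ((h5 x).2 ⟨hx, h⟩)⟩
    simp only [coe_product, Set.mem_prod, mem_coe, mem_pi, mem_Fo]
    refine ⟨fun x hx => ((h5 x).1 hx).2, ?_, ?_, ?_⟩
    · intro x hx
      split_ifs with h
      · rfl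
      · exact h1 x fun h' => hx (mem_sdiff.2 ⟨h', h⟩)
    · intro x hx
      split_ifs with h
      · exact hx
      · exact h6 x hx h
    · intro x hx
      obtain ⟨i, hi⟩ := h3 x (mem_sdiff.1 hx).1
      induction i generalizing x with
      | zero => exact absurd hi (mem_sdiff.1 hx).2
      | succ i ih =>
        by_cases h : x ∈ I
        · exact ⟨0, h⟩
        · obtain ⟨j, hj⟩ := ih (f x) (h6 x hx h) hi
          exact ⟨j + 1, by simpa [Function.iterate_succ_apply, h] using hj⟩
  · rintro ⟨g, f⟩ hp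
    simp only [coe_product, Set.mem_prod, mem_coe, mem_pi, mem_Fo] at hp
    obtain ⟨hg, h1, h2, h3⟩ := hp
    simp only [coe_filter, Set.mem_ofPred_eq, mem_Fo]
    refine ⟨⟨?_, ?_, ?_⟩, ?_⟩
    · intro x hx
      rw [dif_neg fun h => hx (hI h)]
      exact h1 x fun h => hx (mem_sdiff.1 h).1
    · intro x hx
      split_ifs with h
      · exact hRS (hg x h)
      · by_cases hx' : x ∈ S \ R
        · exact (mem_sdiff.1 (h2 x hx')).1
        · rw [h1 x fun h => hx' (mem_sdiff.1 h).1]
          exact hx
    · intro x hx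
      by_cases hxR : x ∈ R
      · exact ⟨0, hxR⟩
      have hx' : x ∈ S \ R := mem_sdiff.2 ⟨hx, hxR⟩
      obtain ⟨i, hi⟩ := h3 x hx'
      clear hx hxR
      induction i generalizing x with
      | zero => exact ⟨1, by simpa [show x ∈ I from hi] using hg x hi⟩
      | succ i ih =>
        by_cases h : x ∈ I
        · exact ⟨1, by simpa [h] using hg x h⟩
        · obtain ⟨j, hj⟩ := ih (f x) (h2 x hx') hi
          exact ⟨j + 1, by simpa [Function.iterate_succ_apply, h] using hj⟩
    · ext x
      rw [mem_filter]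
      constructor
      · rintro ⟨hx, h⟩
        by_contra hxI
        rw [dif_neg hxI] at h
        exact (mem_sdiff.1 (h2 x hx)).2 h
      · intro h
        exact ⟨hI h, by rw [dif_pos h]; exact hg x h⟩
  · intro f _
    funext x
    simp only
    split_ifs <;> rfl
  · rintro ⟨g, f⟩ hp
    simp only [coe_product, Set.mem_prod, mem_coe, mem_pi, mem_Fo] at hp
    obtain ⟨-, h1, -, -⟩ := hp
    refine Prod.ext ?_ ?_
    · funext x hx
      simp [hx]
    · funext x
      simp only
      split_ifs with h
      · exact (h1 x fun h' => (mem_sdiff.1 h').2 h).symm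
      · rfl

lemma binom_weighted (p k M : ℕ) :
    ∑ i ∈ range (p + 1 + 1), (p + 1).choose i * (k ^ i * (i * M ^ (p + 1 - i))) =
      (p + 1) * (k * (k + M) ^ p) := by
  rw [sum_range_succ', add_pow, mul_sum, mul_sum]
  simp only [zero_mul, mul_zero, add_zero]
  refine sum_congr rfl fun i _ => ?_
  have h := Nat.add_one_mul_choose_eq p i
  have h2 : p + 1 - (i + 1) = p - i := by omega
  rw [h2, pow_succ]
  simp only [Nat.cast_id]
  calc (p + 1).choose (i + 1) * (k ^ i * k * ((i + 1) * M ^ (p - i)))
      = ((p + 1).choose (i + 1) * (i + 1)) * (k ^ i * k * M ^ (p - i)) := by ring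
    _ = _ := by rw [← h]; ring

/-- The number of forests on `n` points with `k` given roots is `k n ^ (n - k - 1)`. -/
theorem card_Fo (n : ℕ) : ∀ S R : Finset X, S.card = n → R ⊆ S →
    (Fo S R).card * S.card = R.card * S.card ^ (S.card - R.card) := by
  classical
  induction n using Nat.strong_induction_on with
  | _ n ih =>
  intro S R hS hRS
  rcases R.eq_empty_or_nonempty with rfl | hR
  · rcases S.eq_empty_or_nonempty with rfl | ⟨x, hx⟩
    · simp
    · have : Fo S ∅ = ∅ := by
        refine eq_empty_of_forall_notMem fun f hf => ?_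
        obtain ⟨i, hi⟩ := (mem_Fo.1 hf).2.2 x hx
        simp at hi
      simp [this]
  have hm : (S \ R).card = S.card - R.card := card_sdiff_of_subset hRS
  have hk := hR.card_pos
  have hle := card_le_card hRS
  have hsum : (Fo S R).card =
      ∑ I ∈ (S \ R).powerset, R.card ^ I.card * (Fo (S \ R) I).card := by
    rw [card_eq_sum_card_fiberwise (f := fun f => (S \ R).filter fun x => f x ∈ R)
      (t := (S \ R).powerset) (fun f _ => mem_coe.2 (mem_powerset.2 (filter_subset _ _)))]
    exact sum_congr rfl fun I hI => card_fiber hRS (mem_powerset.1 hI)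
  rcases Nat.eq_zero_or_pos (S \ R).card with h0 | hpos
  · have h1 : S \ R = ∅ := card_eq_zero.1 h0
    have h2 : Fo S R = {id} := by
      ext f
      simp only [mem_Fo, h1, mem_singleton]
      constructor
      · rintro ⟨h, -, -⟩
        funext x
        exact h x (by simp)
      · rintro rfl
        exact ⟨fun _ _ => rfl, fun _ h => h, fun x hx => ⟨0, sdiff_eq_empty_iff_subset.1 h1 hx⟩⟩
    rw [h2, ← hm, h0]
    simp
    omega
  · obtain ⟨p, hp⟩ : ∃ p, (S \ R).card = p + 1 := ⟨_, (Nat.succ_pred_eq_of_pos hpos).symm⟩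
    have h1 : (Fo S R).card * (p + 1) = (p + 1) * (R.card * (R.card + (p + 1)) ^ p) := by
      rw [hsum, sum_mul, ← binom_weighted]
      have := sum_powerset_apply_card (x := S \ R)
        (fun i => R.card ^ i * (i * (p + 1) ^ (p + 1 - i)))
      rw [hp] at this
      simp only [smul_eq_mul] at this
      rw [← this]
      refine sum_congr rfl fun I hI => ?_
      have h3 := ih (p + 1) (by omega) (S \ R) I hp (mem_powerset.1 hI)
      rw [hp] at h3
      rw [mul_assoc, h3]
    rw [mul_comm (p + 1)] at h1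
    have h2 := Nat.eq_of_mul_eq_mul_right (Nat.succ_pos p) h1
    have h3 : R.card + (p + 1) = S.card := by omega
    rw [h2, h3, ← hm, hp, pow_succ]
    ring

/-- Parent maps of the trees on `X` rooted at `z₀`. -/
def Tr (z₀ : X) : Type := {t : X → X // t z₀ = z₀ ∧ ∀ z, ∃ i, t^[i] z = z₀}

noncomputable instance (z₀ : X) : Fintype (Tr z₀) := by
  classical
  unfold Tr
  infer_instance

/-- The tree formula of Cayley. -/
theorem card_Tr (z₀ : X) (h : 2 ≤ Fintype.card X) :
    Fintype.card (Tr z₀) = Fintype.card X ^ (Fintype.card X - 2) := by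
  classical
  have h1 := card_Fo _ (univ : Finset X) {z₀} rfl (subset_univ _)
  have h2 : Fintype.card (Tr z₀) = (Fo (univ : Finset X) {z₀}).card := by
    rw [← Fintype.card_coe]
    refine Fintype.card_congr (Equiv.subtypeEquivRight fun t => ?_)
    simp [mem_Fo]
  rw [card_univ, card_singleton, one_mul, ← h2] at h1
  obtain ⟨N, hN⟩ : ∃ N, Fintype.card X = N + 2 := ⟨_, (Nat.sub_add_cancel h).symm⟩
  rw [hN] at h1 ⊢
  have h3 : N + 2 - 1 = N + 1 := by omega
  rw [h3, pow_succ] at h1
  simpa using h1

end Pool.Agent.MP_689404_al.X
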