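import Mathlib
import Pool.Agent.MP_689404_al.Upper

/-!
# Cochains on the coset graph: path values, exact counts, the lower rank bound
-/

set_option autoImplicit false

namespace Pool.Agent.MP_689404_al.X

open FreeGroup Pool.Agent.MP_689404_al

variable {α : Type}

section Path

variable {H : Subgroup (FreeGroup α)}

lemma path_append (c : (FreeGroup α ⧸ H) × α → ℚ) (g : FreeGroup α) (l l' : List (α × Bool)) :
    path H c g (l ++ l') = path H c g l + path H c (g * mk l) l' := by
  induction l generalizing g with
  | nil => simp [path, ← one_eq_mk]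
  | cons y t ih =>
    simp only [List.cons_append, path, ih]
    have h1 : g * mk [y] * mk t = g * mk (y :: t) := by rw [mul_assoc, mul_mk]; rfl
    rw [h1]
    ring

lemma path_mul_left (c : (FreeGroup α ⧸ H) × α → ℚ) {h : FreeGroup α} (hh : h ∈ H)
    (g : FreeGroup α) (l : List (α × Bool)) : path H c (h * g) l = path H c g l := by
  induction l generalizing g with
  | nil => simp [path]
  | cons y t ih =>
    simp only [path, edgeVal, ed_mul_left hh, mul_assoc, ih]

lemma edgeVal_bar (c : (FreeGroup α ⧸ H) × α → ℚ) (g : FreeGroup α) (y : α × Bool) :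
    edgeVal H c (g * mk [y]) (bar y) = - edgeVal H c g y := by
  simp only [edgeVal, ed_bar]
  rcases y with ⟨i, s⟩
  cases s <;> simp [bar]

lemma path_step (c : (FreeGroup α ⧸ H) × α → ℚ) (g : FreeGroup α) {l l' : List (α × Bool)}
    (h : Red.Step l l') : path H c g l = path H c g l' := by
  cases h with
  | @not l₁ l₂ x b =>
    rw [path_append, path_append]
    simp only [path]
    have h1 := edgeVal_bar c (g * mk l₁) (x, b)
    have h2 := mk_bar (x, b)
    simp only [bar] at h1 h2
    rw [h1, h2, mul_inv_cancel_right]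
    ring

lemma path_red (c : (FreeGroup α ⧸ H) × α → ℚ) (g : FreeGroup α) {l l' : List (α × Bool)}
    (h : Red l l') : path H c g l = path H c g l' := by
  induction h with
  | refl => rfl
  | tail _ h2 ih => rw [ih, path_step c g h2]

lemma path_mk (c : (FreeGroup α ⧸ H) × α → ℚ) (g : FreeGroup α) {l l' : List (α × Bool)}
    (h : mk l = mk l') : path H c g l = path H c g l' := by
  obtain ⟨t, h1, h2⟩ := Red.exact.1 h
  rw [path_red c g h1, path_red c g h2]

variable [DecidableEq α]

/-- The value of a cochain on the path from the base vertex that reads `x`. -/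
def pv (H : Subgroup (FreeGroup α)) (c : (FreeGroup α ⧸ H) × α → ℚ) (x : FreeGroup α) : ℚ :=
  path H c 1 x.toWord

lemma pv_mk (c : (FreeGroup α ⧸ H) × α → ℚ) (l : List (α × Bool)) :
    pv H c (mk l) = path H c 1 l :=
  path_mk c 1 (by rw [mk_toWord])

lemma pv_mul_mk (c : (FreeGroup α ⧸ H) × α → ℚ) (x : FreeGroup α) (l : List (α × Bool)) :
    pv H c (x * mk l) = pv H c x + path H c x l := by
  conv_lhs => rw [← mk_toWord (x := x), mul_mk, pv_mk, path_append, one_mul, mk_toWord]
  rfl

lemma pv_one (c : (FreeGroup α ⧸ H) × α → ℚ) : pv H c 1 = 0 := by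
  simp [pv, path]

lemma pv_mul_left (c : (FreeGroup α ⧸ H) × α → ℚ) {h : FreeGroup α} (hh : h ∈ H)
    (x : FreeGroup α) : pv H c (h * x) = pv H c h + pv H c x := by
  conv_lhs => rw [← mk_toWord (x := x), pv_mul_mk]
  have := path_mul_left c hh 1 x.toWord
  rw [mul_one] at this
  rw [this]
  rfl

lemma pv_mul_letter (c : (FreeGroup α ⧸ H) × α → ℚ) (x : FreeGroup α) (y : α × Bool) :
    pv H c (x * mk [y]) = pv H c x + edgeVal H c x y := by
  rw [pv_mul_mk]
  simp [path]

/-- A cochain that vanishes on a generating set vanishes on the subgroup. -/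
lemma pv_eq_zero (c : (FreeGroup α ⧸ H) × α → ℚ) {A : Set (FreeGroup α)}
    (hH : H = Subgroup.closure A) (hc : ∀ a ∈ A, pv H c a = 0) {h : FreeGroup α} (hh : h ∈ H) :
    pv H c h = 0 := by
  have hh' : h ∈ Subgroup.closure A := hH ▸ hh
  clear hh
  induction hh' using Subgroup.closure_induction with
  | mem x hx => exact hc x hx
  | one => exact pv_one c
  | mul x y hx _ ihx ihy => rw [pv_mul_left c (hH ▸ hx), ihx, ihy, add_zero]
  | inv x hx ihx =>
    have := pv_mul_left c (hH ▸ hx : x ∈ H) x⁻¹
    rw [mul_inv_cancel, pv_one, ihx] at this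
    linarith

end Path

variable [DecidableEq α] [Fintype α]

/-- A generating set of a subgroup of finite index `N` has at least `(r-1) N + 1` elements. -/
lemma rank_lower (A : Finset (FreeGroup α)) (H : Subgroup (FreeGroup α))
    (hH : H = Subgroup.closure (A : Set (FreeGroup α))) [Fintype (FreeGroup α ⧸ H)] :
    Fintype.card (FreeGroup α ⧸ H) * Fintype.card α + 1 ≤
      A.card + Fintype.card (FreeGroup α ⧸ H) := by
  classical
  let τ : FreeGroup α ⧸ H → FreeGroup α := fun q => if q = vtx H 1 then 1 else q.out⁻¹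
  have hτ : ∀ q, vtx H (τ q) = q := by
    intro q
    simp only [τ]
    split_ifs with h
    · exact h.symm
    · simp [vtx]
  let Θ : ((FreeGroup α ⧸ H) × α → ℚ) →ₗ[ℚ] (A → ℚ) × ({q // q ≠ vtx H 1} → ℚ) :=
    { toFun := fun c => (fun a => pv H c a, fun q => pv H c (τ q))
      map_add' := fun c c' => by
        ext <;> simp [pv, path_add]
      map_smul' := fun r c => by
        ext <;> simp [pv, path_smul] }
  have hinj : Function.Injective Θ := by
    rw [← LinearMap.ker_eq_bot, LinearMap.ker_eq_bot']
    intro c hc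
    have h1 : ∀ a ∈ (A : Set (FreeGroup α)), pv H c a = 0 := fun a ha =>
      congrFun (congrArg Prod.fst hc) ⟨a, ha⟩
    have h2 : ∀ q, pv H c (τ q) = 0 := by
      intro q
      by_cases hq : q = vtx H 1
      · simp [τ, hq, pv_one]
      · exact congrFun (congrArg Prod.snd hc) ⟨q, hq⟩
    have h3 : ∀ x, pv H c x = 0 := by
      intro x
      have hx : x * (τ (vtx H x))⁻¹ ∈ H := vtx_eq_iff.1 (hτ _).symm
      have := pv_mul_left c hx (τ (vtx H x))
      rw [inv_mul_cancel_right, pv_eq_zero c hH h1 hx, h2] at this
      simpa using this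
    funext ⟨q, i⟩
    have := pv_mul_letter c (τ q) (i, true)
    rw [h3, h3] at this
    simpa [edgeVal, ed, hτ] using this.symm
  have h := LinearMap.finrank_le_finrank_of_injective hinj
  simp only [Module.finrank_prod, Module.finrank_fintype_fun_eq_card, Fintype.card_prod,
    Fintype.card_coe, Fintype.card_subtype_compl, Fintype.card_subtype_eq] at h
  have : 0 < Fintype.card (FreeGroup α ⧸ H) := Fintype.card_pos
  omega

lemma card_treeEdges (k : ℕ) :
    (treeEdges α k).card =
      ∑ j ∈ Finset.range k, 2 * Fintype.card α * (2 * Fintype.card α - 1) ^ j := by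
  classical
  rw [treeEdges, Finset.card_biUnion]
  · refine Finset.sum_congr rfl fun j _ => ?_
    rw [Finset.card_biUnion]
    · rw [Finset.sum_congr rfl (g := fun _ => (2 * Fintype.card α - 1) ^ j)]
      · simp [mul_comm]
      · intro y _
        rw [Finset.card_image_of_injective _ (fun a b h => (Prod.mk.inj h).1), card_pre]
    · intro y _ z _ hne
      simp only [Function.onFun, Finset.disjoint_left, Finset.mem_image]
      rintro _ ⟨a, -, rfl⟩ ⟨b, -, h⟩
      exact hne (Prod.mk.inj h).2.symm
  · intro i _ j _ hne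
    simp only [Function.onFun, Finset.disjoint_left, Finset.mem_biUnion, Finset.mem_image,
      mem_pre]
    rintro _ ⟨y, -, a, ha, rfl⟩ ⟨z, -, b, hb, h⟩
    obtain ⟨rfl, -⟩ := Prod.mk.inj h
    exact hne (ha.1.symm.trans hb.1)

lemma treeEdges_eq (s k : ℕ) (hs : Fintype.card α = s + 1) :
    s * (treeEdges α k).card + (s + 1) = (s + 1) * (2 * (s + 1) - 1) ^ k := by
  rw [← geom_identity, card_treeEdges, hs]

lemma card_ball (k : ℕ) : (ball α k).card = (treeEdges α k).card + 1 := by
  classical
  rw [ball, Finset.card_insert_of_notMem, Finset.card_image_of_injective]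
  · rintro ⟨a, y⟩ ⟨b, z⟩ h
    have := List.append_inj' h rfl
    simp only [List.cons.injEq, and_true] at this
    exact Prod.ext this.1 this.2
  · simp

end Pool.Agent.MP_689404_al.X
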