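import Mathlib
import Pool.Agent.MP_689404_al.X.Coc

/-!
# The equality case of the upper bound
-/

set_option autoImplicit false

namespace Pool.Agent.MP_689404_al.X

open FreeGroup Pool.Agent.MP_689404_al

variable {α : Type} [DecidableEq α]

/-- No nontrivial element of `H` is shorter than `n`. -/
def Girth (H : Subgroup (FreeGroup α)) (n : ℕ) : Prop :=
  ∀ g ∈ H, g ≠ 1 → n ≤ FreeGroup.norm g

lemma Girth.eq_of_mem {H : Subgroup (FreeGroup α)} {n : ℕ} (hG : Girth H n)
    {u v : List (α × Bool)} (hu : FreeGroup.IsReduced u) (hv : FreeGroup.IsReduced v)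
    (hl : u.length + v.length < n) (h : mk u * (mk v)⁻¹ ∈ H) : u = v := by
  have h1 : mk u * (mk v)⁻¹ = 1 := by
    by_contra hne
    have h2 := hG _ h hne
    have h3 := norm_mul_le (mk u) (mk v)⁻¹
    rw [norm_inv_eq] at h3
    have h4 : FreeGroup.norm (mk u) ≤ u.length := norm_mk_le
    have h5 : FreeGroup.norm (mk v) ≤ v.length := norm_mk_le
    omega
  rw [mul_inv_eq_one] at h1
  rw [← toWord_mk_of_isReduced hu, h1, toWord_mk_of_isReduced hv]

lemma Girth.eq_of_vtx {H : Subgroup (FreeGroup α)} {n : ℕ} (hG : Girth H n)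
    {u v : List (α × Bool)} (hu : FreeGroup.IsReduced u) (hv : FreeGroup.IsReduced v)
    (hl : u.length + v.length < n) (h : vtx H (mk u) = vtx H (mk v)) : u = v :=
  hG.eq_of_mem hu hv hl (vtx_eq_iff.1 h)

omit [DecidableEq α] in
lemma not_isReduced_bar (p : List (α × Bool)) (y : α × Bool) :
    ¬ FreeGroup.IsReduced (p ++ [bar y] ++ [y]) := fun h =>
  (isReduced_concat_concat.1 h).2 rfl

omit [DecidableEq α] in
/-- Two crossings of one edge: same direction or opposite directions. -/
lemma ed_eq_cases {H : Subgroup (FreeGroup α)} {g g' : FreeGroup α} {y y' : α × Bool}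
    (h : ed H g y = ed H g' y') :
    (y = y' ∧ vtx H g = vtx H g') ∨ (y = bar y' ∧ vtx H g = vtx H (g' * mk [y'])) := by
  rcases y with ⟨i, s⟩
  rcases y' with ⟨j, t⟩
  simp only [ed, Prod.mk.injEq] at h
  obtain ⟨h1, rfl⟩ := h
  have hb := mk_bar (i, true)
  simp only [bar, Bool.not_true] at hb
  cases s <;> cases t
  · left
    refine ⟨rfl, ?_⟩
    simp only [Bool.false_eq_true, ↓reduceIte, vtx_mul_right] at h1
    exact MulAction.injective _ h1
  · right
    refine ⟨by simp [bar], ?_⟩
    simp only [Bool.false_eq_true, ↓reduceIte] at h1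
    rw [vtx_mul_right, ← h1, vtx_mul_right, hb, inv_inv, inv_smul_smul]
  · right
    exact ⟨by simp [bar], by simpa using h1⟩
  · left
    exact ⟨rfl, by simpa using h1⟩

variable [Fintype α]

lemma Girth.ed_inj {H : Subgroup (FreeGroup α)} {k : ℕ} (hG : Girth H (2 * k)) :
    Set.InjOn (fun e : List (α × Bool) × (α × Bool) => ed H (mk e.1) e.2) (treeEdges α k) := by
  rintro ⟨p, y⟩ hp ⟨p', y'⟩ hp' h
  rw [Finset.mem_coe, mem_treeEdges] at hp hp'
  rcases ed_eq_cases h with ⟨h1, h2⟩ | ⟨h1, h2⟩
  · simp only at h1 h2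
    subst h1
    have := hG.eq_of_vtx (isReduced_left hp.2) (isReduced_left hp'.2) (by omega) h2
    rw [this]
  · exfalso
    simp only at h1 h2
    rw [mul_mk] at h2
    have := hG.eq_of_vtx (isReduced_left hp.2) hp'.2 (by simp; omega) h2
    subst this
    have h3 : y' = bar y := by rw [h1, bar_bar]
    rw [h3] at hp
    exact not_isReduced_bar _ _ hp.2

/-- Finite index and large girth give many generators. -/
lemma lower_of_girth (s k n : ℕ) (hs : Fintype.card α = s + 1) (A : Finset (FreeGroup α))
    (H : Subgroup (FreeGroup α)) (hH : H = Subgroup.closure (A : Set (FreeGroup α)))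
    [H.FiniteIndex] (hG : Girth H n) :
    (n = 2 * k + 1 → (s + 1) * (2 * (s + 1) - 1) ^ k ≤ A.card) ∧
    (n = 2 * k → (2 * (s + 1) - 1) ^ k ≤ A.card) := by
  classical
  have : Fintype (FreeGroup α ⧸ H) := Fintype.ofFinite _
  have h1 := rank_lower A H hH
  rw [hs] at h1
  have hT := treeEdges_eq s k hs
  constructor
  · rintro rfl
    have h2 : (ball α k).card ≤ Fintype.card (FreeGroup α ⧸ H) := by
      rw [← Finset.card_univ]
      refine Finset.card_le_card_of_injOn (fun l => vtx H (mk l)) (by simp) ?_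
      intro u hu v hv h
      rw [Finset.mem_coe, mem_ball] at hu hv
      exact hG.eq_of_vtx hu.1 hv.1 (by omega) h
    rw [card_ball] at h2
    nlinarith [Nat.mul_le_mul_left s h2]
  · rintro rfl
    have h2 : (treeEdges α k).card ≤ Fintype.card (FreeGroup α ⧸ H) * (s + 1) := by
      rw [← hs, ← Fintype.card_prod, ← Finset.card_univ]
      exact Finset.card_le_card_of_injOn _ (by simp) hG.ed_inj
    have h3 : (s + 1) * (2 * (s + 1) - 1) ^ k ≤ (s + 1) * A.card := by
      nlinarith [Nat.mul_le_mul_left s h2, Nat.mul_le_mul_left (s + 1) h1]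
    exact Nat.le_of_mul_le_mul_left h3 (Nat.succ_pos s)

omit [DecidableEq α] [Fintype α] in
lemma finiteIndex_of_closed (H : Subgroup (FreeGroup α)) (V : Finset (FreeGroup α ⧸ H))
    (h1 : vtx H 1 ∈ V) (hV : ∀ v ∈ V, ∀ i : α, (of i : FreeGroup α)⁻¹ • v ∈ V) :
    (∀ q, q ∈ V) ∧ H.FiniteIndex := by
  classical
  have hV' : ∀ v ∈ V, ∀ i : α, (of i : FreeGroup α) • v ∈ V := by
    intro v hv i
    have := Finset.surj_on_of_inj_on_of_card_le (s := V) (t := V)
      (fun a _ => (of i : FreeGroup α)⁻¹ • a) (fun a ha => hV a ha i)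
      (fun a b _ _ h => MulAction.injective _ h) le_rfl v hv
    obtain ⟨a, ha, rfl⟩ := this
    simpa using ha
  have hall : ∀ x : FreeGroup α, ∀ v ∈ V, x • v ∈ V := by
    intro x
    induction x using FreeGroup.induction_on with
    | C1 => simp
    | of i => exact fun v hv => hV' v hv i
    | inv_of i _ => exact fun v hv => hV v hv i
    | mul x y hx hy => exact fun v hv => by rw [mul_smul]; exact hx _ (hy v hv)
  have hq : ∀ q, q ∈ V := by
    intro q
    induction q using QuotientGroup.induction_on with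
    | H z =>
      have := hall z _ h1
      simpa [vtx, MulAction.Quotient.smul_mk] using this
  refine ⟨hq, ?_⟩
  have : Finite (FreeGroup α ⧸ H) :=
    Finite.of_surjective (fun v : V => v.1) fun q => ⟨⟨q, hq q⟩, rfl⟩
  exact Subgroup.finiteIndex_of_finite_quotient

omit [Fintype α] in
lemma split_word (g : FreeGroup α) (j : ℕ) :
    mk (g.toWord.take j) * (mk (invRev (g.toWord.drop j)))⁻¹ = g := by
  rw [← inv_mk, inv_inv, mul_mk, List.take_append_drop, mk_toWord]

omit [Fintype α] in
lemma isReduced_take (g : FreeGroup α) (j : ℕ) : FreeGroup.IsReduced (g.toWord.take j) :=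
  isReduced_left (b := g.toWord.drop j) (by rw [List.take_append_drop]; exact isReduced_toWord)

omit [Fintype α] in
lemma isReduced_drop (g : FreeGroup α) (j : ℕ) :
    FreeGroup.IsReduced (invRev (g.toWord.drop j)) :=
  isReduced_invRev
    (isReduced_right (a := g.toWord.take j) (by rw [List.take_append_drop]; exact isReduced_toWord))

omit [DecidableEq α] in
lemma exists_letter (s : ℕ) (hs : Fintype.card α = s + 1) (h1 : 1 ≤ s)
    {u v : List (α × Bool)} (hu : FreeGroup.IsReduced u) (hv : FreeGroup.IsReduced v) :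
    ∃ y, FreeGroup.IsReduced (u ++ [y]) ∧ FreeGroup.IsReduced (v ++ [y]) := by
  classical
  have key : ∀ a b : α × Bool, ∃ y, a ≠ bar y ∧ b ≠ bar y := by
    intro a b
    have h2 : ({a, b} : Finset (α × Bool)).card < (Finset.univ : Finset (α × Bool)).card := by
      have := Finset.card_le_two (a := a) (b := b)
      simp only [Finset.card_univ, Fintype.card_prod, Fintype.card_bool, hs]
      omega
    obtain ⟨z, -, hz⟩ := Finset.exists_mem_notMem_of_card_lt_card h2
    simp only [Finset.mem_insert, Finset.mem_singleton, not_or] at hz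
    exact ⟨bar z, by rw [bar_bar]; exact fun h => hz.1 h.symm,
      by rw [bar_bar]; exact fun h => hz.2 h.symm⟩
  have one : ∀ {w : List (α × Bool)}, FreeGroup.IsReduced w → ∀ d : α × Bool,
      ∃ a, ∀ y, a ≠ bar y → FreeGroup.IsReduced (w ++ [y]) := by
    intro w hw d
    rcases List.eq_nil_or_concat w with rfl | ⟨b, z, rfl⟩
    · exact ⟨d, fun y _ => IsReduced.singleton⟩
    · rw [List.concat_eq_append] at hw ⊢
      exact ⟨z, fun y hy => isReduced_concat_concat.2 ⟨hw, hy⟩⟩
  have : Nonempty α := Fintype.card_pos_iff.1 (by omega)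
  obtain ⟨i⟩ := this
  obtain ⟨a, ha⟩ := one hu (i, true)
  obtain ⟨b, hb⟩ := one hv (i, true)
  obtain ⟨y, h2, h3⟩ := key a b
  exact ⟨y, ha y h2, hb y h3⟩

/-- The equality case for rank at least two. -/
lemma tight (s k n : ℕ) (hs : Fintype.card α = s + 1) (hs1 : 1 ≤ s) (A : Finset (FreeGroup α))
    (hn : ∀ x ∈ A, FreeGroup.norm x = n)
    (hA : Function.Injective (FreeGroup.lift fun x : A => (x : FreeGroup α)))
    (H : Subgroup (FreeGroup α)) (hH : H = (FreeGroup.lift fun x : A => (x : FreeGroup α)).range)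
    (hc : (n = 2 * k + 1 ∧ A.card = (s + 1) * (2 * (s + 1) - 1) ^ k) ∨
      (n = 2 * k ∧ A.card = (2 * (s + 1) - 1) ^ k)) :
    H.FiniteIndex ∧ Girth H n := by
  classical
  have hAH : ∀ a ∈ A, a ∈ H := fun a ha => hH ▸ ⟨of ⟨a, ha⟩, by simp⟩
  let V : Finset (FreeGroup α ⧸ H) := (ball α k).image fun l => vtx H (mk l)
  let E₀ : Finset ((FreeGroup α ⧸ H) × α) := (treeEdges α k).image fun e => ed H (mk e.1) e.2
  let E₁ : Finset ((FreeGroup α ⧸ H) × α) := V ×ˢ Finset.univ
  let E₂ : Finset ((FreeGroup α ⧸ H) × α) :=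
    E₁.filter fun e => (of e.2 : FreeGroup α)⁻¹ • e.1 ∈ V
  have hmemV : ∀ l, FreeGroup.IsReduced l → l.length ≤ k → vtx H (mk l) ∈ V := fun l h1 h2 =>
    Finset.mem_image.2 ⟨l, mem_ball.2 ⟨h1, h2⟩, rfl⟩
  have hmemE₀ : ∀ p y, FreeGroup.IsReduced (p ++ [y]) → p.length < k → ed H (mk p) y ∈ E₀ :=
    fun p y h1 h2 => Finset.mem_image.2 ⟨(p, y), mem_treeEdges.2 ⟨h2, h1⟩, rfl⟩
  have hedE₂ : ∀ p y, vtx H (mk p) ∈ V → vtx H (mk (p ++ [y])) ∈ V → ed H (mk p) y ∈ E₂ := by
    intro p y h1 h2
    rw [← mul_mk] at h2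
    rcases y with ⟨i, b⟩
    have hb := mk_bar (i, true)
    simp only [bar, Bool.not_true] at hb
    cases b
    · simp only [E₂, E₁, ed, Finset.mem_filter, Finset.mem_product, Finset.mem_univ, and_true,
        Bool.false_eq_true, ↓reduceIte]
      refine ⟨h2, ?_⟩
      rw [vtx_mul_right, hb, inv_inv]
      change (of i : FreeGroup α)⁻¹ • (of i : FreeGroup α) • vtx H (mk p) ∈ V
      rw [inv_smul_smul]
      exact h1
    · simp only [E₂, E₁, ed, Finset.mem_filter, Finset.mem_product, Finset.mem_univ, and_true,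
        ↓reduceIte]
      refine ⟨h1, ?_⟩
      rw [vtx_mul_right] at h2
      exact h2
  have hE02 : E₀ ⊆ E₂ := by
    intro e he
    obtain ⟨⟨p, y⟩, hp, rfl⟩ := Finset.mem_image.1 he
    rw [mem_treeEdges] at hp
    exact hedE₂ p y (hmemV p (isReduced_left hp.2) hp.1.le)
      (hmemV _ hp.2 (by simpa using hp.1))
  have hE21 : E₂ ⊆ E₁ := Finset.filter_subset _ _
  have hV₀ : ∀ v ∈ V, ∃ l, vtx H (mk l) = v ∧
      ∀ p y s, l = p ++ y :: s → ed H (mk p) y ∈ E₀ := by
    intro v hv
    obtain ⟨l, hl, rfl⟩ := Finset.mem_image.1 hv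
    rw [mem_ball] at hl
    refine ⟨l, rfl, ?_⟩
    rintro p y t rfl
    refine hmemE₀ p y (isReduced_left (b := t) (by simpa using hl.1)) ?_
    have := hl.2
    simp at this
    omega
  have hsplit : ∀ a ∈ A, ∀ p t, a.toWord = p ++ t → mk p = a * mk (invRev t) := by
    intro a _ p t h
    rw [← inv_mk, ← mk_toWord (x := a), h, ← mul_mk]
    group
  have hcardV : V.card ≤ (ball α k).card := Finset.card_image_le
  have hcardE₀ : E₀.card ≤ (treeEdges α k).card := Finset.card_image_le
  have hcardE₁ : E₁.card = V.card * (s + 1) := by simp [E₁, hs]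
  have hT := treeEdges_eq s k hs
  have hB := card_ball (α := α) k
  have h21 := Finset.card_le_card hE21
  have h02 := Finset.card_le_card hE02
  have hfin : E₁.card ≤ E₂.card → H.FiniteIndex := by
    intro h
    have h1 : E₂ = E₁ := Finset.eq_of_subset_of_card_le hE21 h
    refine (finiteIndex_of_closed H V (hmemV [] IsReduced.nil (by simp)) ?_).2
    intro v hv i
    have : (v, i) ∈ E₂ := by rw [h1]; simp [E₁, hv]
    exact (Finset.mem_filter.1 this).2
  rcases hc with ⟨hnk, hc⟩ | ⟨hnk, hc⟩
  · have hvert : ∀ a ∈ A, ∀ p t, a.toWord = p ++ t → vtx H (mk p) ∈ V := by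
      intro a ha p t h
      have hr : FreeGroup.IsReduced (p ++ t) := h ▸ isReduced_toWord
      have hl : p.length + t.length = 2 * k + 1 := by
        rw [← List.length_append, ← h, ← hnk]
        exact hn a ha
      by_cases hp : p.length ≤ k
      · exact hmemV p (isReduced_left hr) hp
      · rw [hsplit a ha p t h, vtx_mul_left (hAH a ha)]
        exact hmemV _ (isReduced_invRev (isReduced_right hr)) (by simp; omega)
    have h1 := card_add_card_le A hA H hH E₂ V
      (fun a ha p y t h => hedE₂ p y (hvert a ha p _ h) (hvert a ha _ t (by simpa using h)))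
      (fun v hv => by
        obtain ⟨l, h1, h2⟩ := hV₀ v hv
        exact ⟨l, h1, fun p y t h => hE02 (h2 p y t h)⟩)
    have h2 : (ball α k).card ≤ V.card := by
      by_contra hlt
      have h3 : V.card + 1 ≤ (ball α k).card := by omega
      nlinarith [Nat.mul_le_mul_left s h3]
    have hinj : Set.InjOn (fun l => vtx H (mk l)) (ball α k) :=
      Finset.card_image_iff.1 (le_antisymm hcardV h2)
    refine ⟨hfin (by nlinarith [Nat.mul_le_mul_left s hcardV]), ?_⟩
    intro g hg hne
    by_contra hlt
    have hlen : g.toWord.length ≤ 2 * k := by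
      have : FreeGroup.norm g = g.toWord.length := rfl
      omega
    have h3 := hinj (x₁ := g.toWord.take k) (x₂ := invRev (g.toWord.drop k))
      (mem_ball.2 ⟨isReduced_take g k, by simp⟩) (mem_ball.2 ⟨isReduced_drop g k, by simp; omega⟩)
      (vtx_eq_iff.2 (by rw [split_word]; exact hg))
    apply hne
    rw [← split_word g k, h3, mul_inv_cancel]
  · have h1 := card_add_card_le A hA H hH E₀ V
      (fun a ha p y t h => by
        have hr : FreeGroup.IsReduced (p ++ y :: t) := h ▸ isReduced_toWord
        have hl : p.length + (t.length + 1) = 2 * k := by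
          rw [← List.length_cons (a := y), ← List.length_append, ← h, ← hnk]
          exact hn a ha
        by_cases hp : p.length < k
        · exact hmemE₀ p y (isReduced_left (b := t) (by simpa using hr)) hp
        · rw [← ed_bar, mul_mk, hsplit a ha (p ++ [y]) t (by simpa using h),
            ed_mul_left (hAH a ha)]
          refine hmemE₀ _ _ ?_ (by simp; omega)
          rw [← invRev_cons']
          exact isReduced_invRev (isReduced_right hr))
      hV₀
    have h4 := Nat.mul_le_mul_left (s + 1) h1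
    have h2 : (treeEdges α k).card ≤ E₀.card := by
      by_contra hlt
      have h3 : E₀.card + 1 ≤ (treeEdges α k).card := by omega
      nlinarith [Nat.mul_le_mul_left s h3]
    have hinj : Set.InjOn (fun e : List (α × Bool) × (α × Bool) => ed H (mk e.1) e.2)
        (treeEdges α k) := Finset.card_image_iff.1 (le_antisymm hcardE₀ h2)
    refine ⟨hfin (by nlinarith [Nat.mul_le_mul_left s hcardE₀]), ?_⟩
    intro g hg hne
    by_contra hlt
    have hnorm : FreeGroup.norm g = g.toWord.length := rfl
    have hpos : g.toWord.length ≠ 0 := fun h => hne (norm_eq_zero.1 (hnorm.trans h))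
    rcases Nat.even_or_odd' g.toWord.length with ⟨j, hj | hj⟩
    · obtain ⟨y, hy1, hy2⟩ := exists_letter s hs hs1 (isReduced_take g j) (isReduced_drop g j)
      have hv : vtx H (mk (g.toWord.take j)) = vtx H (mk (invRev (g.toWord.drop j))) :=
        vtx_eq_iff.2 (by rw [split_word]; exact hg)
      have h3 := hinj (x₁ := (g.toWord.take j, y)) (x₂ := (invRev (g.toWord.drop j), y))
        (mem_treeEdges.2 ⟨by simp; omega, hy1⟩) (mem_treeEdges.2 ⟨by simp; omega, hy2⟩)
        (by simp only [ed, vtx_mul_right, hv])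
      apply hne
      rw [← split_word g j, (Prod.mk.inj h3).1, mul_inv_cancel]
    · obtain ⟨y, t, hyt⟩ : ∃ y t, g.toWord.drop j = y :: t := by
        cases h : g.toWord.drop j with
        | nil =>
          have := congrArg List.length h
          simp at this
          omega
        | cons y t => exact ⟨y, t, rfl⟩
      have hw : g.toWord = g.toWord.take j ++ y :: t := by rw [← hyt, List.take_append_drop]
      have hr : FreeGroup.IsReduced (g.toWord.take j ++ y :: t) := hw ▸ isReduced_toWord
      have hlt' : t.length = j := by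
        have := congrArg List.length hyt
        simp at this
        omega
      have hm : mk (g.toWord.take j) * mk [y] = g * mk (invRev t) := by
        conv_rhs => rw [← inv_mk, ← mk_toWord (x := g), hw]
        rw [show g.toWord.take j ++ y :: t = g.toWord.take j ++ [y] ++ t by simp, ← mul_mk,
          ← mul_mk]
        group
      have h3 := hinj (x₁ := (g.toWord.take j, y)) (x₂ := (invRev t, bar y))
        (mem_treeEdges.2 ⟨by simp; omega, isReduced_left (b := t) (by simpa using hr)⟩)
        (mem_treeEdges.2 ⟨by simp; omega, by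
          rw [← invRev_cons']
          exact isReduced_invRev (isReduced_right hr)⟩)
        (by
          simp only
          rw [← ed_bar, hm, ed_mul_left hg])
      exact bar_ne y (Prod.mk.inj h3).2.symm

end Pool.Agent.MP_689404_al.X
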