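import Mathlib
import Pool.Agent.MP_689404_al.X.Ext

/-!
# Maximum free subsets of the sphere: the group theoretic description
-/

set_option autoImplicit false

namespace Pool.Agent.MP_689404_al.X

open FreeGroup Pool.Agent.MP_689404_al

variable {α : Type} [DecidableEq α]

omit [DecidableEq α] in
lemma exists_zpow [Subsingleton α] (a : α) (g : FreeGroup α) : ∃ j : ℤ, g = of a ^ j := by
  induction g using FreeGroup.induction_on with
  | C1 => exact ⟨0, by simp⟩
  | of i => exact ⟨1, by rw [Subsingleton.elim i a]; simp⟩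
  | inv_of i _ => exact ⟨-1, by rw [Subsingleton.elim i a]; simp⟩
  | mul x y hx hy =>
    obtain ⟨i, rfl⟩ := hx
    obtain ⟨j, rfl⟩ := hy
    exact ⟨i + j, by rw [zpow_add]⟩

lemma norm_zpow (a : α) (j : ℤ) : FreeGroup.norm ((of a : FreeGroup α) ^ j) = j.natAbs := by
  rcases Int.natAbs_eq j with h | h
  · conv_lhs => rw [h, zpow_natCast, norm_of_pow]
  · conv_lhs => rw [h, zpow_neg, norm_inv_eq, zpow_natCast, norm_of_pow]

/-- The equality case in rank one. -/
lemma tight_one [Subsingleton α] (a : α) (n : ℕ) (hn : 1 ≤ n) (g : FreeGroup α)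
    (hg : FreeGroup.norm g = n) (H : Subgroup (FreeGroup α))
    (hH : H = Subgroup.closure ({g} : Set (FreeGroup α))) : H.FiniteIndex ∧ Girth H n := by
  obtain ⟨j, rfl⟩ := exists_zpow a g
  rw [norm_zpow] at hg
  rw [← Subgroup.zpowers_eq_closure] at hH
  subst hH
  constructor
  · have : Finite (FreeGroup α ⧸ Subgroup.zpowers ((of a : FreeGroup α) ^ j)) := by
      refine Finite.of_surjective
        (fun i : Fin n => (((of a : FreeGroup α) ^ (i : ℕ) : FreeGroup α) :
          FreeGroup α ⧸ Subgroup.zpowers ((of a : FreeGroup α) ^ j))) ?_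
      intro q
      induction q using QuotientGroup.induction_on with
      | H z =>
        obtain ⟨t, rfl⟩ := exists_zpow a z
        have hj : j ≠ 0 := by omega
        have h1 := Int.emod_nonneg t hj
        have h2 := Int.emod_lt_abs t hj
        rw [← Int.natCast_natAbs, hg] at h2
        refine ⟨⟨(t % j).toNat, by omega⟩, ?_⟩
        simp only [QuotientGroup.eq]
        refine ⟨t / j, ?_⟩
        simp only
        rw [← zpow_natCast, Int.toNat_of_nonneg h1, ← zpow_mul, ← zpow_neg, ← zpow_add]
        congr 1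
        have := Int.mul_ediv_add_emod t j
        omega
    exact Subgroup.finiteIndex_of_finite_quotient
  · rintro _ ⟨t, rfl⟩ hne
    simp only at hne ⊢
    rw [← zpow_mul, norm_zpow, Int.natAbs_mul, hg]
    have : t ≠ 0 := by
      rintro rfl
      simp at hne
    exact Nat.le_mul_of_pos_right _ (by omega)

omit [DecidableEq α] in
lemma range_eq_closure (A : Finset (FreeGroup α)) :
    (FreeGroup.lift fun x : A => (x : FreeGroup α)).range =
      Subgroup.closure (A : Set (FreeGroup α)) := by
  rw [range_lift_eq_closure]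
  congr 1
  ext x
  simp

variable [Fintype α]

/-- The equality case in every rank. -/
lemma tight_all (s k n : ℕ) (hs : Fintype.card α = s + 1) (hn1 : 1 ≤ n)
    (A : Finset (FreeGroup α)) (hn : ∀ x ∈ A, FreeGroup.norm x = n)
    (hA : Function.Injective (FreeGroup.lift fun x : A => (x : FreeGroup α)))
    (H : Subgroup (FreeGroup α)) (hH : H = Subgroup.closure (A : Set (FreeGroup α)))
    (hc : (n = 2 * k + 1 ∧ A.card = (s + 1) * (2 * (s + 1) - 1) ^ k) ∨
      (n = 2 * k ∧ A.card = (2 * (s + 1) - 1) ^ k)) :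
    H.FiniteIndex ∧ Girth H n := by
  rcases Nat.eq_zero_or_pos s with rfl | hs1
  · have h1 : A.card = 1 := by rcases hc with ⟨-, h⟩ | ⟨-, h⟩ <;> simpa using h
    obtain ⟨g, rfl⟩ := Finset.card_eq_one.1 h1
    have : Subsingleton α := Fintype.card_le_one_iff_subsingleton.1 (by omega)
    obtain ⟨a⟩ : Nonempty α := Fintype.card_pos_iff.1 (by omega)
    exact tight_one a n hn1 g (hn g (by simp)) H (by simpa using hH)
  · exact tight s k n hs hs1 A hn hA H (by rw [range_eq_closure, hH]) hc

/-- A free subset of the sphere is maximum iff it generates a subgroup of finite index without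
short elements. -/
theorem extremal (s k n : ℕ) (hs : Fintype.card α = s + 1) (hn1 : 1 ≤ n)
    (A : Finset (FreeGroup α)) (hn : ∀ x ∈ A, FreeGroup.norm x = n)
    (hA : Function.Injective (FreeGroup.lift fun x : A => (x : FreeGroup α))) :
    (n = 2 * k + 1 → (A.card = (s + 1) * (2 * (s + 1) - 1) ^ k ↔
      (Subgroup.closure (A : Set (FreeGroup α))).FiniteIndex ∧
        Girth (Subgroup.closure (A : Set (FreeGroup α))) n)) ∧
    (n = 2 * k → (A.card = (2 * (s + 1) - 1) ^ k ↔
      (Subgroup.closure (A : Set (FreeGroup α))).FiniteIndex ∧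
        Girth (Subgroup.closure (A : Set (FreeGroup α))) n)) := by
  have hu := upper s k n hs A hn hA
  constructor
  · intro h
    refine ⟨fun hc => tight_all s k n hs hn1 A hn hA _ rfl (Or.inl ⟨h, hc⟩), fun ⟨h1, h2⟩ => ?_⟩
    exact le_antisymm (hu.1 h) ((lower_of_girth s k n hs A _ rfl h2).1 h)
  · intro h
    refine ⟨fun hc => tight_all s k n hs hn1 A hn hA _ rfl (Or.inr ⟨h, hc⟩), fun ⟨h1, h2⟩ => ?_⟩
    exact le_antisymm (hu.2 h) ((lower_of_girth s k n hs A _ rfl h2).2 h)

end Pool.Agent.MP_689404_al.X
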