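import Mathlib
import Pool.Agent.MP_689404_al.X.Main

/-!
# Tools: signs, changes of basis along a forest, normal forms of generators
-/

set_option autoImplicit false

namespace Pool.Agent.MP_689404_al.X

open FreeGroup Pool.Agent.MP_689404_al

/-- `g` or its inverse. -/
def sg {G : Type} [Group G] (b : Bool) (g : G) : G := if b then g else g⁻¹

@[simp] lemma sg_true {G : Type} [Group G] (g : G) : sg true g = g := rfl
@[simp] lemma sg_false {G : Type} [Group G] (g : G) : sg false g = g⁻¹ := rfl

lemma sg_sg {G : Type} [Group G] (b : Bool) (g : G) : sg b (sg b g) = g := by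
  cases b <;> simp

lemma map_sg {G G' : Type} [Group G] [Group G'] (φ : G →* G') (b : Bool) (g : G) :
    φ (sg b g) = sg b (φ g) := by
  cases b <;> simp

lemma sg_mem {G : Type} [Group G] {H : Subgroup G} {b : Bool} {g : G} : sg b g ∈ H ↔ g ∈ H := by
  cases b <;> simp

lemma free_flip {G ι : Type} [Group G] (s : ι → G) (hs : Function.Injective (FreeGroup.lift s))
    (ε : ι → Bool) : Function.Injective (FreeGroup.lift fun i => sg (ε i) (s i)) := by
  let φ : FreeGroup ι →* FreeGroup ι := FreeGroup.lift fun i => sg (ε i) (of i)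
  have h1 : φ.comp φ = MonoidHom.id _ := by
    ext i
    simp [φ, map_sg, sg_sg]
  have h2 : Function.Injective φ := Function.LeftInverse.injective (g := φ) fun x =>
    DFunLike.congr_fun h1 x
  have h3 : (FreeGroup.lift fun i => sg (ε i) (s i)) = (FreeGroup.lift s).comp φ := by
    ext i
    simp [φ, map_sg]
  rw [h3]
  exact hs.comp h2

section Depth

variable {Y : Type} (root : Y → Prop) (f : Y → Y) (hreach : ∀ y, ∃ j, root (f^[j] y))

open Classical in
/-- Distance to the root. -/
noncomputable def dep (y : Y) : ℕ := Nat.find (hreach y)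

lemma dep_eq {y : Y} (hy : ¬ root y) : dep root f hreach y = dep root f hreach (f y) + 1 := by
  classical
  unfold dep
  rw [Nat.find_eq_iff]
  refine ⟨Nat.find_spec (hreach (f y)), ?_⟩
  intro n hn
  cases n with
  | zero => exact hy
  | succ n => exact Nat.find_min (hreach (f y)) (by omega)

lemma dep_root {y : Y} (hy : root y) : dep root f hreach y = 0 := by
  classical
  unfold dep
  rw [Nat.find_eq_zero]
  exact hy

include hreach in
lemma free_parent {G : Type} [Group G] (s : Y → G) (hs1 : ∀ y, root y → s y = 1)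
    (hs : Function.Injective (FreeGroup.lift fun y : {y // ¬ root y} => s y)) :
    Function.Injective (FreeGroup.lift fun y : {y // ¬ root y} => s y * (s (f y))⁻¹) := by
  classical
  let S : Y → FreeGroup {y // ¬ root y} := fun y => if h : root y then 1 else of ⟨y, h⟩
  let q : ℕ → Y → FreeGroup {y // ¬ root y} := fun n =>
    Nat.rec (fun _ => 1) (fun _ r y => S y * r (f y)) n
  let p : Y → FreeGroup {y // ¬ root y} := fun y => q (dep root f hreach y) y
  have hp1 : ∀ y, root y → p y = 1 := fun y hy => by
    simp only [p, dep_root root f hreach hy]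
    rfl
  have hp2 : ∀ y, ¬ root y → p y = S y * p (f y) := fun y hy => by
    simp only [p, dep_eq root f hreach hy]
    rfl
  let φ : FreeGroup {y // ¬ root y} →* FreeGroup {y // ¬ root y} :=
    FreeGroup.lift fun y => S y * (S (f y))⁻¹
  let ψ : FreeGroup {y // ¬ root y} →* FreeGroup {y // ¬ root y} := FreeGroup.lift fun y => p y
  have hψ : ∀ y, ψ (S y) = p y := by
    intro y
    by_cases h : root y
    · simp [S, h, hp1 y h]
    · simp [S, h, ψ]
  have h1 : ψ.comp φ = MonoidHom.id _ := by
    ext ⟨y, hy⟩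
    simp only [φ, MonoidHom.comp_apply, lift_apply_of, _root_.map_mul, _root_.map_inv, hψ,
      MonoidHom.id_apply]
    rw [hp2 y hy, mul_inv_cancel_right]
    simp [S, hy]
  have h2 : Function.Injective φ := Function.LeftInverse.injective (g := ψ) fun x =>
    DFunLike.congr_fun h1 x
  have h4 : ∀ y, (FreeGroup.lift fun y : {y // ¬ root y} => s y) (S y) = s y := by
    intro y
    by_cases h : root y
    · simp [S, h, hs1 y h]
    · simp [S, h]
  have h3 : (FreeGroup.lift fun y : {y // ¬ root y} => s y * (s (f y))⁻¹) =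
      (FreeGroup.lift fun y : {y // ¬ root y} => s y).comp φ := by
    ext y
    simp only [φ, MonoidHom.comp_apply, lift_apply_of, _root_.map_mul, _root_.map_inv, h4]
  rw [h3]
  exact hs.comp h2

end Depth

/-- A relation along which every point reaches `z₀` contains a spanning tree. -/
lemma exists_parent {X : Type} (Adj : X → X → Prop) (z₀ : X)
    (h : ∀ z, Relation.ReflTransGen Adj z z₀) :
    ∃ t : X → X, t z₀ = z₀ ∧ (∀ z, ∃ i, t^[i] z = z₀) ∧ ∀ z, z ≠ z₀ → Adj z (t z) := by
  classical
  let Rn : ℕ → X → Prop := fun n =>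
    Nat.rec (fun z => z = z₀) (fun _ r z => ∃ w, Adj z w ∧ r w) n
  have h1 : ∀ z, ∃ n, Rn n z := by
    intro z
    induction h z using Relation.ReflTransGen.head_induction_on with
    | refl => exact ⟨0, rfl⟩
    | head hab _ ih =>
      obtain ⟨n, hn⟩ := ih
      exact ⟨n + 1, _, hab, hn⟩
  have h1' : ∀ z, ∃ n, Rn n z ∧ ∀ m, Rn m z → n ≤ m := fun z => by
    obtain ⟨n, hn, hm⟩ := (wellFounded_lt (α := ℕ)).has_min {n | Rn n z} (h1 z)
    exact ⟨n, hn, fun m h => not_lt.1 (hm m h)⟩
  choose d hd1 hd2 using h1'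
  have h2 : ∀ z, ∃ w, (z = z₀ → w = z₀) ∧ (z ≠ z₀ → Adj z w ∧ d w < d z) := by
    intro z
    by_cases hz : z = z₀
    · exact ⟨z₀, fun _ => rfl, fun h => absurd hz h⟩
    · have h3 := hd1 z
      rcases Nat.eq_zero_or_eq_succ_pred (d z) with hn | hn
      · rw [hn] at h3
        exact absurd h3 hz
      · rw [hn] at h3
        obtain ⟨w, hw1, hw2⟩ := h3
        refine ⟨w, fun h => absurd h hz, fun _ => ⟨hw1, ?_⟩⟩
        rw [hn]
        exact Nat.lt_succ_of_le (hd2 _ _ hw2)
  choose t ht1 ht2 using h2
  refine ⟨t, ht1 z₀ rfl, ?_, fun z hz => (ht2 z hz).1⟩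
  intro z
  induction hn : d z using Nat.strong_induction_on generalizing z with
  | _ n ih =>
    by_cases hz : z = z₀
    · exact ⟨0, hz⟩
    · obtain ⟨i, hi⟩ := ih _ (hn ▸ (ht2 z hz).2) (t z) rfl
      exact ⟨i + 1, hi⟩

lemma image_free {G ι : Type} [Group G] [DecidableEq G] [Fintype ι] (g : ι → G)
    (hg : Function.Injective (FreeGroup.lift g)) :
    Function.Injective (FreeGroup.lift fun x : (Finset.univ.image g : Finset G) => (x : G)) ∧
      (Finset.univ.image g).card = Fintype.card ι := by
  obtain ⟨A, h1, h2, h3⟩ := exists_finset_of_free g hg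
  have h4 : A = Finset.univ.image g := by
    refine Finset.eq_of_subset_of_card_le (fun x hx => by simpa using h1 x hx) ?_
    rw [h3]
    exact Finset.card_image_le
  subst h4
  exact ⟨h2, h3⟩

lemma not_inv_mem {G : Type} [Group G] {A : Finset G}
    (hA : Function.Injective (FreeGroup.lift fun x : A => (x : G))) {a : G} (ha : a ∈ A)
    (ha' : a⁻¹ ∈ A) : False := by
  have h1 : (of ⟨a, ha⟩ * of ⟨a⁻¹, ha'⟩ : FreeGroup A) = 1 := hA (by simp)
  have h2 := congrArg (FreeGroup.lift fun _ : A => Multiplicative.ofAdd (1 : ℤ)) h1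
  simp only [_root_.map_mul, lift_apply_of, _root_.map_one] at h2
  have h3 := congrArg Multiplicative.toAdd h2
  simp at h3

lemma sg_eq_of_mem {G : Type} [Group G] {A : Finset G}
    (hA : Function.Injective (FreeGroup.lift fun x : A => (x : G))) {g : G} {b b' : Bool}
    (h : sg b g ∈ A) (h' : sg b' g ∈ A) : b = b' := by
  cases b <;> cases b'
  · rfl
  · exact (not_inv_mem hA h' h).elim
  · exact (not_inv_mem hA h h').elim
  · rfl

variable {α : Type} [DecidableEq α]

/-- The element `a y b⁻¹`. -/
def gn (a : List (α × Bool)) (y : α × Bool) (b : List (α × Bool)) : FreeGroup α :=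
  mk a * mk [y] * (mk b)⁻¹

omit [DecidableEq α] in
lemma gn_inv (a : List (α × Bool)) (y : α × Bool) (b : List (α × Bool)) :
    (gn a y b)⁻¹ = gn b (bar y) a := by
  simp only [gn, mk_bar]
  group

lemma toWord_gn {a b : List (α × Bool)} {y : α × Bool}
    (ha : FreeGroup.IsReduced (a ++ [y])) (hb : FreeGroup.IsReduced (b ++ [bar y])) :
    (gn a y b).toWord = a ++ [y] ++ invRev b := by
  have h1 : FreeGroup.IsReduced ([y] ++ invRev b) := by
    have := isReduced_invRev hb
    rw [invRev_concat', bar_bar] at this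
    simpa using this
  have h2 : FreeGroup.IsReduced (a ++ [y] ++ invRev b) :=
    IsReduced.append_overlap ha h1 (by simp)
  rw [gn, inv_mk, mul_mk, mul_mk, toWord_mk_of_isReduced h2]

lemma gn_inj {a b a' b' : List (α × Bool)} {y y' : α × Bool}
    (ha : FreeGroup.IsReduced (a ++ [y])) (hb : FreeGroup.IsReduced (b ++ [bar y]))
    (ha' : FreeGroup.IsReduced (a' ++ [y'])) (hb' : FreeGroup.IsReduced (b' ++ [bar y']))
    (hl : a.length = a'.length) (h : gn a y b = gn a' y' b') : a = a' ∧ y = y' ∧ b = b' := by
  have h1 := congrArg toWord h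
  rw [toWord_gn ha hb, toWord_gn ha' hb'] at h1
  obtain ⟨h2, h3⟩ := List.append_inj h1 (by simp [hl])
  obtain ⟨h4, h5⟩ := List.append_inj h2 hl
  exact ⟨h4, by simpa using h5, invRev_injective h3⟩

/-- Every element is cut at any of its letters. -/
lemma exists_gn (g : FreeGroup α) (i j : ℕ) (h : FreeGroup.norm g = i + 1 + j) :
    ∃ a y b, a.length = i ∧ b.length = j ∧ FreeGroup.IsReduced (a ++ [y]) ∧
      FreeGroup.IsReduced (b ++ [bar y]) ∧ g = gn a y b := by
  have hlen : g.toWord.length = i + 1 + j := h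
  obtain ⟨y, t, hyt⟩ : ∃ y t, g.toWord.drop i = y :: t := by
    cases h : g.toWord.drop i with
    | nil =>
      have := congrArg List.length h
      simp at this
      omega
    | cons y t => exact ⟨y, t, rfl⟩
  have hw : g.toWord = g.toWord.take i ++ y :: t := by rw [← hyt, List.take_append_drop]
  have hr : FreeGroup.IsReduced (g.toWord.take i ++ y :: t) := hw ▸ isReduced_toWord
  have hlt' : t.length = j := by
    have := congrArg List.length hyt
    simp at this
    omega
  refine ⟨g.toWord.take i, y, invRev t, by simp; omega, by simpa using hlt',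
    isReduced_left (b := t) (by simpa using hr), ?_, ?_⟩
  · rw [← invRev_cons']
    exact isReduced_invRev (isReduced_right hr)
  · conv_lhs => rw [← mk_toWord (x := g), hw]
    rw [gn, ← inv_mk, inv_inv, mul_mk, mul_mk]
    simp

end Pool.Agent.MP_689404_al.X
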