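import Mathlib
import Pool.Agent.MP_689404_al.X.Gen

/-!
# The number of maximum free subsets of a sphere of odd radius
-/

set_option autoImplicit false

namespace Pool.Agent.MP_689404_al.X

open FreeGroup Pool.Agent.MP_689404_al

variable {α : Type} [DecidableEq α] [Fintype α]

/-- Free subsets of size `c` of the sphere of radius `n`. -/
def MaxSet (α : Type) [DecidableEq α] (n c : ℕ) : Set (Finset (FreeGroup α)) :=
  {A | (∀ g ∈ A, FreeGroup.norm g = n) ∧
    Function.Injective (FreeGroup.lift fun a : A => (a : FreeGroup α)) ∧ A.card = c}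

omit [Fintype α] in
lemma ncard_eq_of_param {D : Type} [Fintype D] {n c : ℕ} (Ψ : D → Finset (FreeGroup α))
    (h1 : ∀ d, Ψ d ∈ MaxSet α n c) (h2 : Function.Injective Ψ)
    (h3 : ∀ A ∈ MaxSet α n c, ∃ d, Ψ d ⊆ A) : (MaxSet α n c).ncard = Fintype.card D := by
  have h : MaxSet α n c = Set.range Ψ := by
    ext A
    constructor
    · intro hA
      obtain ⟨d, hd⟩ := h3 A hA
      exact ⟨d, Finset.eq_of_subset_of_card_le hd (by rw [hA.2.2, (h1 d).2.2])⟩
    · rintro ⟨d, rfl⟩
      exact h1 d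
  rw [h, Set.ncard_range_of_injective h2, Nat.card_eq_fintype_card]

/-- Index set in odd radius. -/
abbrev IO (α : Type) [DecidableEq α] [Fintype α] (k : ℕ) : Type := Σ i : α, pre k (i, true)

/-- Matchings in odd radius. -/
abbrev BO (α : Type) [DecidableEq α] [Fintype α] (k : ℕ) : Type :=
  ∀ i : α, pre k (i, true) ≃ pre k (i, false)

/-- The generators attached to a matching. -/
def genO {k : ℕ} (β : BO α k) (x : IO α k) : FreeGroup α :=
  gn x.2.1 (x.1, true) (β x.1 x.2).1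

lemma redT {k : ℕ} {y : α × Bool} (u : pre k y) : FreeGroup.IsReduced (u.1 ++ [y]) :=
  (mem_pre.1 u.2).2

lemma lenT {k : ℕ} {y : α × Bool} (u : pre k y) : u.1.length = k := (mem_pre.1 u.2).1

lemma free_genO {k : ℕ} (β : BO α k) : Function.Injective (FreeGroup.lift (genO β)) := by
  refine injective_lift (fun x : IO α k => x.2.1) (fun x => (β x.1 x.2).1) (fun x => (x.1, true))
    (fun x => redT x.2) (fun x => redT (β x.1 x.2)) ?_ ?_ ?_ ?_
  · rintro ⟨i, u⟩ ⟨j, v⟩ h
    have h1 := h.eq_of_length (by simp [lenT])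
    have h2 := List.append_inj' h1 rfl
    simp only [List.cons.injEq, Prod.mk.injEq, and_true] at h2
    obtain ⟨h3, rfl⟩ := h2
    rw [Subtype.ext h3]
  · rintro ⟨i, u⟩ ⟨j, v⟩ h
    have h1 := h.eq_of_length (by simp [lenT])
    have h2 := List.append_inj' h1 rfl
    simp only [bar, List.cons.injEq, Prod.mk.injEq, and_true] at h2
    obtain ⟨h3, rfl⟩ := h2
    rw [(β i).injective (Subtype.ext h3)]
  · intro x y h
    have h1 := h.eq_of_length (by simp [lenT])
    have h2 := List.append_inj_right' h1 rfl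
    simp [bar] at h2
  · intro x y h
    have h1 := h.eq_of_length (by simp [lenT])
    have h2 := List.append_inj_right' h1 rfl
    simp [bar] at h2

lemma card_IO (k : ℕ) :
    Fintype.card (IO α k) = Fintype.card α * (2 * Fintype.card α - 1) ^ k := by
  simp [card_pre]

lemma card_BO (k : ℕ) :
    Fintype.card (BO α k) = ((2 * Fintype.card α - 1) ^ k).factorial ^ Fintype.card α := by
  rw [Fintype.card_pi, Finset.prod_congr rfl (g := fun _ => ((2 * Fintype.card α - 1) ^ k).factorial)]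
  · simp
  · intro i _
    rw [Fintype.card_equiv (Fintype.equivOfCardEq (by simp [card_pre]))]
    simp [card_pre]

/-- The set attached to a matching and a choice of signs. -/
def psiO {k : ℕ} (d : BO α k × (IO α k → Bool)) : Finset (FreeGroup α) :=
  Finset.univ.image fun x => sg (d.2 x) (genO d.1 x)

omit [Fintype α] in
lemma norm_sg (b : Bool) (g : FreeGroup α) : FreeGroup.norm (sg b g) = FreeGroup.norm g := by
  cases b <;> simp

lemma psiO_mem {k : ℕ} (d : BO α k × (IO α k → Bool)) :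
    psiO d ∈ MaxSet α (2 * k + 1) (Fintype.card (IO α k)) := by
  obtain ⟨h1, h2⟩ := image_free _ (free_flip _ (free_genO d.1) d.2)
  refine ⟨?_, h1, h2⟩
  intro g hg
  obtain ⟨x, -, rfl⟩ := Finset.mem_image.1 hg
  rw [norm_sg, genO, gn, norm_gen (redT x.2) (redT (d.1 x.1 x.2)), lenT, lenT]
  omega

lemma sg_gn_inj {k : ℕ} {i j : α} {u : pre k (i, true)} {v : pre k (i, false)}
    {u' : pre k (j, true)} {v' : pre k (j, false)} {b b' : Bool}
    (h : sg b (gn u.1 (i, true) v.1) = sg b' (gn u'.1 (j, true) v'.1)) :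
    b = b' ∧ i = j ∧ u.1 = u'.1 ∧ v.1 = v'.1 := by
  have key : gn u.1 (i, true) v.1 = gn u'.1 (j, true) v'.1 → i = j ∧ u.1 = u'.1 ∧ v.1 = v'.1 := by
    intro h
    obtain ⟨h1, h2, h3⟩ := gn_inj (redT u) (redT v) (redT u') (redT v') (by simp [lenT]) h
    exact ⟨(Prod.mk.inj h2).1, h1, h3⟩
  have key2 : gn u.1 (i, true) v.1 ≠ (gn u'.1 (j, true) v'.1)⁻¹ := by
    intro h
    rw [gn_inv] at h
    obtain ⟨-, h2, -⟩ := gn_inj (redT u) (redT v) (redT v') (redT u')
      (by simp [lenT]) h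
    simp at h2
  cases b <;> cases b'
  · exact ⟨rfl, key (inv_injective h)⟩
  · exact absurd (inv_eq_iff_eq_inv.1 h) key2
  · exact absurd h key2
  · exact ⟨rfl, key h⟩

lemma psiO_injective {k : ℕ} : Function.Injective (psiO (α := α) (k := k)) := by
  rintro ⟨β, ε⟩ ⟨β', ε'⟩ h
  have key : ∀ x : IO α k, ε x = ε' x ∧ β x.1 x.2 = β' x.1 x.2 := by
    rintro ⟨i, u⟩
    have h1 : sg (ε ⟨i, u⟩) (genO β ⟨i, u⟩) ∈ psiO (β', ε') :=
      h ▸ Finset.mem_image.2 ⟨⟨i, u⟩, Finset.mem_univ _, rfl⟩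
    obtain ⟨⟨j, u'⟩, -, h2⟩ := Finset.mem_image.1 h1
    obtain ⟨h3, rfl, h4, h5⟩ := sg_gn_inj h2
    obtain rfl : u' = u := Subtype.ext h4
    exact ⟨h3.symm, (Subtype.ext h5).symm⟩
  refine Prod.ext ?_ (funext fun x => (key x).1)
  funext i
  exact Equiv.ext fun u => (key ⟨i, u⟩).2

lemma psiO_surj (s k : ℕ) (hs : Fintype.card α = s + 1) (A : Finset (FreeGroup α))
    (hA : A ∈ MaxSet α (2 * k + 1) (Fintype.card (IO α k))) :
    ∃ d : BO α k × (IO α k → Bool), psiO d ⊆ A := by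
  obtain ⟨hn, hf, hc⟩ := hA
  obtain ⟨-, hG⟩ := tight_all s k _ hs (by omega) A hn hf _ rfl
    (Or.inl ⟨rfl, by rw [hc, card_IO, hs]⟩)
  have hH : ∀ {b : Bool} {g : FreeGroup α}, sg b g ∈ A →
      g ∈ Subgroup.closure (A : Set (FreeGroup α)) := fun h =>
    sg_mem.1 (Subgroup.subset_closure h)
  have h1 : ∀ a : A, ∃ x : IO α k, ∃ v : pre k (x.1, false), ∃ b : Bool,
      sg b (gn x.2.1 (x.1, true) v.1) = a := by
    rintro ⟨a, ha⟩
    obtain ⟨p, ⟨i, c⟩, t, h1, h2, h3, h4, rfl⟩ := exists_gn a k k (by rw [hn a ha]; omega)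
    cases c
    · exact ⟨⟨i, t, mem_pre.2 ⟨h2, h4⟩⟩, ⟨p, mem_pre.2 ⟨h1, h3⟩⟩, false, by simp [gn_inv, bar]⟩
    · exact ⟨⟨i, p, mem_pre.2 ⟨h1, h3⟩⟩, ⟨t, mem_pre.2 ⟨h2, h4⟩⟩, true, rfl⟩
  choose F v b hF using h1
  have hFinj : Function.Injective F := by
    intro a a' h
    have e1 := hF a
    have e2 := hF a'
    have m1 : sg (b a) (gn (F a).2.1 ((F a).1, true) (v a).1) ∈ A := e1 ▸ a.2
    have m2 : sg (b a') (gn (F a').2.1 ((F a').1, true) (v a').1) ∈ A := e2 ▸ a'.2
    have hv := redT (v a')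
    have hl := lenT (v a')
    generalize (v a').1 = w at e2 m2 hv hl
    rw [← h] at e2 m2 hv
    have h3 : (v a).1 = w := by
      refine hG.eq_of_mem (isReduced_left (redT (v a))) (isReduced_left hv)
        (by rw [lenT, hl]; omega) ?_
      have := mul_mem (inv_mem (hH m1)) (hH m2)
      simp only [gn] at this
      convert this using 1
      group
    subst h3
    rw [← sg_eq_of_mem hf m1 m2] at e2
    exact Subtype.ext (e1.symm.trans e2)
  have hFsurj : Function.Surjective F :=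
    ((Fintype.bijective_iff_injective_and_card F).2 ⟨hFinj, by simpa using hc⟩).2
  have h2 : ∀ x : IO α k, ∃ v : pre k (x.1, false), ∃ b : Bool,
      sg b (gn x.2.1 (x.1, true) v.1) ∈ A := by
    intro x
    obtain ⟨a, rfl⟩ := hFsurj x
    exact ⟨v a, b a, hF a ▸ a.2⟩
  choose β ε hβ using h2
  let γ : ∀ i : α, pre k (i, true) → pre k (i, false) := fun i u => β ⟨i, u⟩
  have hβinj : ∀ i, Function.Injective (γ i) := by
    intro i u u' h
    have m1 : gn u.1 (i, true) (γ i u).1 ∈ _ := hH (hβ ⟨i, u⟩)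
    have m2 : gn u'.1 (i, true) (γ i u').1 ∈ _ := hH (hβ ⟨i, u'⟩)
    rw [← h] at m2
    refine Subtype.ext (hG.eq_of_mem (isReduced_left (redT u)) (isReduced_left (redT u'))
      (by rw [lenT, lenT]; omega) ?_)
    have := mul_mem m1 (inv_mem m2)
    simp only [gn] at this
    convert this using 1
    group
  refine ⟨(fun i => Equiv.ofBijective _ ((Fintype.bijective_iff_injective_and_card _).2
    ⟨hβinj i, by simp [card_pre]⟩), ε), ?_⟩
  intro g hg
  obtain ⟨x, -, rfl⟩ := Finset.mem_image.1 hg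
  exact hβ x

theorem count_odd (s k : ℕ) (hs : Fintype.card α = s + 1) :
    (MaxSet α (2 * k + 1) ((s + 1) * (2 * (s + 1) - 1) ^ k)).ncard =
      ((2 * (s + 1) - 1) ^ k).factorial ^ (s + 1) * 2 ^ ((s + 1) * (2 * (s + 1) - 1) ^ k) := by
  have h := ncard_eq_of_param (psiO (α := α) (k := k)) psiO_mem psiO_injective (psiO_surj s k hs)
  rw [Fintype.card_prod, Fintype.card_fun, Fintype.card_bool, card_BO, card_IO, hs] at h
  exact h

end Pool.Agent.MP_689404_al.X
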