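import Mathlib
import Pool.Agent.MP_689404_al.X.Odd
import Pool.Agent.MP_689404_al.X.Cayley

/-!
# Even radius: the parametrisation by partitions, trees and signs
-/

set_option autoImplicit false

namespace Pool.Agent.MP_689404_al.X

open FreeGroup Pool.Agent.MP_689404_al

variable {α : Type} [DecidableEq α] [Fintype α] {j : ℕ} {z₀ : α × Bool}

/-- Partitions of the words of length `j + 1` into blocks with all last letters. -/
abbrev BE (j : ℕ) (z₀ : α × Bool) : Type :=
  ∀ z : {z : α × Bool // z ≠ z₀}, pre j z₀ ≃ pre j z.1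

/-- Block and last letter. -/
abbrev YE (j : ℕ) (z₀ : α × Bool) : Type := pre j z₀ × (α × Bool)

/-- The word in a given block with a given last letter, without that letter. -/
def U (β : BE j z₀) (y : YE j z₀) : pre j y.2 :=
  if h : y.2 = z₀ then ⟨y.1.1, by rw [h]; exact y.1.2⟩ else β ⟨y.2, h⟩ y.1

/-- The word in a given block with a given last letter. -/
def W (β : BE j z₀) (y : YE j z₀) : List (α × Bool) := (U β y).1 ++ [y.2]

lemma W_root (β : BE j z₀) (ρ : pre j z₀) : W β (ρ, z₀) = ρ.1 ++ [z₀] := by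
  simp [W, U]

lemma W_red (β : BE j z₀) (y : YE j z₀) : FreeGroup.IsReduced (W β y) := redT (U β y)

lemma W_len (β : BE j z₀) (y : YE j z₀) : (W β y).length = j + 1 := by
  simp [W, lenT]

lemma W_last {β β' : BE j z₀} {y y' : YE j z₀} (h : W β y = W β' y') : y.2 = y'.2 := by
  simpa using List.append_inj_right' h rfl

lemma W_inj (β : BE j z₀) : Function.Injective (W β) := by
  rintro ⟨ρ, z⟩ ⟨ρ', z'⟩ h
  obtain rfl : z = z' := W_last h
  have h1 := List.append_inj_left' h rfl
  by_cases hz : z = z₀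
  · simp only [U, hz, ↓reduceDIte] at h1
    rw [Subtype.ext h1]
  · simp only [U, hz, ↓reduceDIte] at h1
    rw [(β ⟨z, hz⟩).injective (Subtype.ext h1)]

lemma W_surj (β : BE j z₀) {a : List (α × Bool)} {z : α × Bool} (ha : a ∈ pre j z) :
    ∃ ρ, W β (ρ, z) = a ++ [z] := by
  by_cases hz : z = z₀
  · subst hz
    exact ⟨⟨a, ha⟩, W_root β _⟩
  · refine ⟨(β ⟨z, hz⟩).symm ⟨a, ha⟩, ?_⟩
    simp [W, U, hz]

lemma BE_ext {β β' : BE j z₀} (h : ∀ y, W β y = W β' y) : β = β' := by
  funext ⟨z, hz⟩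
  refine Equiv.ext fun ρ => Subtype.ext ?_
  have h1 := List.append_inj_left' (h (ρ, z)) rfl
  simpa [U, hz] using h1

/-- The element `u v⁻¹`. -/
def pr (u v : List (α × Bool)) : FreeGroup α := mk u * (mk v)⁻¹

omit [DecidableEq α] [Fintype α] in
lemma pr_inv (u v : List (α × Bool)) : (pr u v)⁻¹ = pr v u := by simp [pr]

omit [DecidableEq α] [Fintype α] in
lemma pr_mul (u v w : List (α × Bool)) : pr u v * pr v w = pr u w := by
  simp only [pr]
  group

lemma pr_W (β : BE j z₀) (y : YE j z₀) (v : List (α × Bool)) :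
    pr (W β y) v = gn (U β y).1 y.2 v := by
  rw [pr, gn, W, mk_concat]

lemma W_red_bar (β : BE j z₀) (y : YE j z₀) {z : α × Bool} (h : y.2 ≠ z) :
    FreeGroup.IsReduced (W β y ++ [bar z]) :=
  isReduced_concat_concat.2 ⟨W_red β y, by rwa [bar_bar]⟩

lemma pr_inj {β β' : BE j z₀} {x y x' y' : YE j z₀} (h1 : y.2 ≠ x.2) (h2 : y'.2 ≠ x'.2)
    (h : pr (W β x) (W β y) = pr (W β' x') (W β' y')) : W β x = W β' x' ∧ W β y = W β' y' := by
  rw [pr_W, pr_W] at h
  obtain ⟨h3, h4, h5⟩ := gn_inj (redT _) (W_red_bar β y h1) (redT _) (W_red_bar β' y' h2)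
    (by simp [lenT]) h
  exact ⟨by rw [W, W, h3, h4], h5⟩

/-- The parent map on all blocks. -/
def par (t : pre j z₀ → Tr z₀) (y : YE j z₀) : YE j z₀ := (y.1, (t y.1).1 y.2)

lemma par_iter (t : pre j z₀ → Tr z₀) (i : ℕ) (y : YE j z₀) :
    (par t)^[i] y = (y.1, ((t y.1).1)^[i] y.2) := by
  induction i generalizing y with
  | zero => rfl
  | succ i ih => rw [Function.iterate_succ_apply, ih]; rfl

lemma par_reach (t : pre j z₀ → Tr z₀) (y : YE j z₀) : ∃ i, ((par t)^[i] y).2 = z₀ := by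
  obtain ⟨i, hi⟩ := (t y.1).2.2 y.2
  exact ⟨i, by rw [par_iter]; exact hi⟩

lemma par_ne (t : pre j z₀ → Tr z₀) {y : YE j z₀} (hy : ¬ y.2 = z₀) : (par t y).2 ≠ y.2 := by
  intro h
  obtain ⟨i, hi⟩ := (t y.1).2.2 y.2
  rw [Function.iterate_fixed h] at hi
  exact hy hi

/-- Index set in even radius. -/
abbrev IE (j : ℕ) (z₀ : α × Bool) : Type := {y : YE j z₀ // ¬ y.2 = z₀}

/-- The generators attached to a partition and trees. -/
def genE (β : BE j z₀) (t : pre j z₀ → Tr z₀) (y : IE j z₀) : FreeGroup α :=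
  pr (W β y.1) (W β (par t y.1))

lemma free_star (β : BE j z₀) :
    Function.Injective (FreeGroup.lift fun y : IE j z₀ => pr (W β y.1) (W β (y.1.1, z₀))) := by
  have h := injective_lift (fun y : IE j z₀ => (U β y.1).1) (fun y => W β (y.1.1, z₀))
    (fun y => y.1.2) (fun y => redT _) (fun y => W_red_bar β _ fun h => y.2 h.symm) ?_ ?_ ?_ ?_
  · convert h using 4 with y
    rw [pr_W, gn]
  · intro x y h
    exact Subtype.ext (W_inj β (h.eq_of_length (by simp [lenT])))
  · intro x y h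
    have h1 := h.eq_of_length (by simp [W_len])
    have h2 := List.append_inj' h1 rfl
    have h3 := W_inj β h2.1
    refine Subtype.ext (Prod.ext (Prod.mk.inj h3).1 ?_)
    simpa [bar_inj] using h2.2
  · intro x y h
    have h1 : W β x.1 <+: W β (y.1.1, z₀) :=
      List.prefix_of_prefix_length_le h (List.prefix_append _ _) (by simp [W_len])
    exact x.2 (W_last (h1.eq_of_length (by simp [W_len])))
  · intro x y h
    have h1 := h.length_le
    simp [W_len, lenT] at h1

lemma free_genE (β : BE j z₀) (t : pre j z₀ → Tr z₀) :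
    Function.Injective (FreeGroup.lift (genE β t)) := by
  have h := free_parent (fun y : YE j z₀ => y.2 = z₀) (par t) (par_reach t)
    (fun y => pr (W β y) (W β (y.1, z₀))) (by
      rintro ⟨ρ, z⟩ hz
      simp only at hz
      simp only [pr, hz, mul_inv_cancel]) (free_star β)
  convert h using 4 with y
  rw [genE, pr_inv]
  exact (pr_mul _ _ _).symm

/-- All the data in even radius. -/
abbrev DE (j : ℕ) (z₀ : α × Bool) : Type := BE j z₀ × (pre j z₀ → Tr z₀) × (IE j z₀ → Bool)

/-- The set attached to a partition, trees and signs. -/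
def psiE (d : DE j z₀) : Finset (FreeGroup α) :=
  Finset.univ.image fun y => sg (d.2.2 y) (genE d.1 d.2.1 y)

lemma psiE_mem (d : DE j z₀) : psiE d ∈ MaxSet α (2 * (j + 1)) (Fintype.card (IE j z₀)) := by
  obtain ⟨h1, h2⟩ := image_free _ (free_flip _ (free_genE d.1 d.2.1) d.2.2)
  refine ⟨?_, h1, h2⟩
  intro g hg
  obtain ⟨y, -, rfl⟩ := Finset.mem_image.1 hg
  rw [norm_sg, genE, pr_W, gn, norm_gen (redT _) (W_red_bar _ _ (par_ne _ y.2)), lenT, W_len]
  omega

lemma psiE_injective : Function.Injective (psiE (α := α) (j := j) (z₀ := z₀)) := by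
  rintro ⟨β, t, ε⟩ ⟨β', t', ε'⟩ h
  have key : ∀ y : IE j z₀, ∃ y' : IE j z₀,
      (ε y = ε' y' ∧ W β y.1 = W β' y'.1 ∧ W β (par t y.1) = W β' (par t' y'.1)) ∨
      (W β y.1 = W β' (par t' y'.1) ∧ W β (par t y.1) = W β' y'.1) := by
    intro y
    have h1 : sg (ε y) (genE β t y) ∈ psiE (β', t', ε') :=
      h ▸ Finset.mem_image.2 ⟨y, Finset.mem_univ _, rfl⟩
    obtain ⟨y', -, h2⟩ := Finset.mem_image.1 h1
    refine ⟨y', ?_⟩
    simp only at h2
    have a1 : genE β t y = genE β' t' y' → _ := pr_inj (par_ne t y.2) (par_ne t' y'.2)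
    have a2 : genE β t y = (genE β' t' y')⁻¹ →
        W β y.1 = W β' (par t' y'.1) ∧ W β (par t y.1) = W β' y'.1 := by
      intro h
      rw [genE, genE, pr_inv] at h
      exact pr_inj (par_ne t y.2) (par_ne t' y'.2).symm h
    cases h3 : ε y <;> cases h4 : ε' y' <;> rw [h3, h4] at h2
    · exact Or.inl ⟨rfl, a1 (inv_injective h2.symm)⟩
    · exact Or.inr (a2 (inv_eq_iff_eq_inv.1 h2.symm))
    · exact Or.inr (a2 h2.symm)
    · exact Or.inl ⟨rfl, a1 h2.symm⟩
  let d := dep (fun y : YE j z₀ => y.2 = z₀) (par t) (par_reach t)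
  have hd : ∀ y : YE j z₀, ¬ y.2 = z₀ → d y = d (par t y) + 1 := fun y hy =>
    dep_eq _ _ _ hy
  have hW : ∀ y, W β y = W β' y := by
    intro y
    induction hn : d y using Nat.strong_induction_on generalizing y with
    | _ n ih =>
      by_cases hy : y.2 = z₀
      · obtain ⟨ρ, z⟩ := y
        obtain rfl : z = z₀ := hy
        rw [W_root, W_root]
      · have h1 := ih _ (by rw [← hn, hd y hy]; omega) (par t y) rfl
        obtain ⟨y', ⟨-, h2, h3⟩ | ⟨h2, h3⟩⟩ := key ⟨y, hy⟩
        · have h4 := W_inj β' (h1.symm.trans h3)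
          have h5 : y = y'.1 := Prod.ext (Prod.mk.inj h4).1 (W_last h2)
          rw [← h5] at h2
          exact h2
        · have h4 := W_inj β' (h1.symm.trans h3)
          have h5 : y = par t' y'.1 := Prod.ext (by rw [← h4]; rfl) (W_last h2)
          rw [← h5] at h2
          exact h2
  obtain rfl : β = β' := BE_ext hW
  have hP : ∀ y : YE j z₀, ∀ hy : ¬ y.2 = z₀,
      par t y = par t' y ∧ ε ⟨y, hy⟩ = ε' ⟨y, hy⟩ := by
    intro y
    induction hn : d y using Nat.strong_induction_on generalizing y with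
    | _ n ih =>
      intro hy
      obtain ⟨⟨y', hy'⟩, ⟨h1, h2, h3⟩ | ⟨h2, h3⟩⟩ := key ⟨y, hy⟩
      · obtain rfl : y = y' := W_inj β h2
        exact ⟨W_inj β h3, h1⟩
      · exfalso
        obtain rfl : par t y = y' := W_inj β h3
        have h4 : y = par t' (par t y) := W_inj β h2
        have h5 := (ih _ (by rw [← hn, hd y hy]; omega) (par t y) rfl hy').1
        have h6 := hd y hy
        have h7 := hd _ hy'
        rw [h5, ← h4] at h7
        omega
  refine Prod.ext rfl (Prod.ext ?_ (funext fun y => (hP y.1 y.2).2))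
  funext ρ
  refine Subtype.ext (funext fun z => ?_)
  by_cases hz : z = z₀
  · rw [hz, (t ρ).2.1, (t' ρ).2.1]
  · exact (Prod.mk.inj (hP (ρ, z) hz).1).2

lemma card_IE : Fintype.card (IE j z₀) =
    (2 * Fintype.card α - 1) ^ j * (2 * Fintype.card α - 1) := by
  have e : IE j z₀ ≃ pre j z₀ × {z : α × Bool // ¬ z = z₀} :=
    { toFun := fun y => (y.1.1, ⟨y.1.2, y.2⟩)
      invFun := fun p => ⟨(p.1, p.2.1), p.2.2⟩
      left_inv := fun _ => rfl
      right_inv := fun _ => rfl }
  rw [Fintype.card_congr e]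
  simp [card_pre, mul_comm]

lemma card_BE : Fintype.card (BE j z₀) =
    ((2 * Fintype.card α - 1) ^ j).factorial ^ (2 * Fintype.card α - 1) := by
  rw [Fintype.card_pi, Finset.prod_congr rfl
    (g := fun _ => ((2 * Fintype.card α - 1) ^ j).factorial)]
  · simp [mul_comm]
  · intro i _
    rw [Fintype.card_equiv (Fintype.equivOfCardEq (by simp [card_pre]))]
    simp [card_pre]

end Pool.Agent.MP_689404_al.X
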