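import Mathlib
import Pool.Agent.MP_689404_al.X.Even

/-!
# Even radius: every maximum free set comes from the parametrisation
-/

set_option autoImplicit false

namespace Pool.Agent.MP_689404_al.X

open FreeGroup Pool.Agent.MP_689404_al

variable {α : Type} [DecidableEq α]

omit [DecidableEq α] in
lemma path_replicate_nonneg {H : Subgroup (FreeGroup α)} (c : (FreeGroup α ⧸ H) × α → ℚ)
    (hc : ∀ e, 0 ≤ c e) (i : α) (m : ℕ) (g : FreeGroup α) :
    0 ≤ path H c g (List.replicate m (i, true)) := by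
  induction m generalizing g with
  | zero => simp [path]
  | succ m ih =>
    simp only [List.replicate_succ, path, edgeVal, ↓reduceIte]
    exact add_nonneg (hc _) (ih _)

/-- In finite index every edge of the coset graph is crossed by a generator. -/
lemma edge_crossed (A : Set (FreeGroup α)) (H : Subgroup (FreeGroup α))
    (hH : H = Subgroup.closure A) [H.FiniteIndex] (e : (FreeGroup α ⧸ H) × α) :
    ∃ a ∈ A, ∃ p y t, a.toWord = p ++ y :: t ∧ ed H (mk p) y = e := by
  classical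
  by_contra hne
  let c : (FreeGroup α ⧸ H) × α → ℚ := fun e' => if e' = e then 1 else 0
  have h1 : ∀ a ∈ A, pv H c a = 0 := by
    intro a ha
    rw [pv, path_congr (c' := 0)]
    · simpa using path_smul (H := H) 0 0 1 a.toWord
    · intro p y t h
      rw [one_mul]
      exact if_neg fun h' => hne ⟨a, ha, p, y, t, h, h'⟩
  obtain ⟨q, i⟩ := e
  obtain ⟨g, rfl⟩ : ∃ g, vtx H g = q := ⟨q.out⁻¹, by simp [vtx]⟩
  obtain ⟨m, hm, -, hmem⟩ := Subgroup.exists_pow_mem_of_index_ne_zero
    (Subgroup.FiniteIndex.index_ne_zero (H := H)) (g * of i * g⁻¹)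
  rw [conj_pow] at hmem
  have h2 := pv_mul_left c hmem g
  rw [pv_eq_zero c hH h1 hmem, inv_mul_cancel_right, zero_add, ← mk_toWord (x := of i ^ m),
    toWord_of_pow, pv_mul_mk] at h2
  obtain ⟨m, rfl⟩ : ∃ l, m = l + 1 := ⟨m - 1, by omega⟩
  have h3 := path_replicate_nonneg c (fun e => by simp only [c]; split_ifs <;> norm_num) i m
    (g * mk [(i, true)])
  simp only [List.replicate_succ, path, edgeVal, ed, ↓reduceIte, c] at h2 h3
  linarith

lemma gen_edge_tree {H : Subgroup (FreeGroup α)} {k : ℕ} {a : FreeGroup α} (ha : a ∈ H)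
    (hn : FreeGroup.norm a = 2 * k) {p t : List (α × Bool)} {y : α × Bool}
    (h : a.toWord = p ++ y :: t) :
    ∃ p' y', p'.length < k ∧ FreeGroup.IsReduced (p' ++ [y']) ∧
      ed H (mk p') y' = ed H (mk p) y := by
  have hr : FreeGroup.IsReduced (p ++ y :: t) := h ▸ isReduced_toWord
  have hl : p.length + (t.length + 1) = 2 * k := by
    rw [← List.length_cons (a := y), ← List.length_append, ← h]
    exact hn
  by_cases hp : p.length < k
  · exact ⟨p, y, hp, isReduced_left (b := t) (by simpa using hr), rfl⟩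
  · refine ⟨invRev t, bar y, by simp; omega, ?_, ?_⟩
    · rw [← invRev_cons']
      exact isReduced_invRev (isReduced_right hr)
    · have h1 : mk p * mk [y] = a * mk (invRev t) := by
        conv_rhs => rw [← inv_mk, ← mk_toWord (x := a), h]
        rw [show p ++ y :: t = p ++ [y] ++ t by simp, ← mul_mk, ← mul_mk]
        group
      rw [← ed_bar (mk p), h1, ed_mul_left ha]

variable [Fintype α] {j : ℕ}

lemma exists_partner (A : Finset (FreeGroup α)) (H : Subgroup (FreeGroup α))
    (hH : H = Subgroup.closure (A : Set (FreeGroup α))) [H.FiniteIndex]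
    (hn : ∀ a ∈ A, FreeGroup.norm a = 2 * (j + 1)) (hG : Girth H (2 * (j + 1)))
    {u : List (α × Bool)} (hu : FreeGroup.IsReduced u) (hl : u.length = j + 1) (z : α × Bool) :
    ∃ a : pre j z, pr (a.1 ++ [z]) u ∈ H := by
  obtain ⟨a, ha, p, y, t, h1, h2⟩ := edge_crossed _ H hH (ed H (mk u) (bar z))
  obtain ⟨p', y', h3, h4, h5⟩ := gen_edge_tree (hH ▸ Subgroup.subset_closure ha : a ∈ H)
    (hn a ha) h1
  rw [h2] at h5
  rcases ed_eq_cases h5.symm with ⟨-, h6⟩ | ⟨h6, h7⟩
  · have := hG.eq_of_vtx hu (isReduced_left h4) (by omega) h6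
    subst this
    omega
  · obtain rfl : z = y' := bar_inj.1 h6
    rw [mul_mk] at h7
    by_cases hp : p'.length = j
    · exact ⟨⟨p', mem_pre.2 ⟨hp, h4⟩⟩, vtx_eq_iff.1 h7.symm⟩
    · have := hG.eq_of_vtx hu h4 (by simp; omega) h7
      subst this
      simp at hl
      omega

/-- A function on the words of length `j + 1` is the path value of a cochain. -/
lemma exists_cochain_top {H : Subgroup (FreeGroup α)} (hG : Girth H (2 * (j + 1)))
    (F : List (α × Bool) → ℚ) (hF : ∀ u, u.length ≤ j → F u = 0) :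
    ∃ c, ∀ u, FreeGroup.IsReduced u → u.length ≤ j + 1 → pv H c (mk u) = F u := by
  classical
  let c : (FreeGroup α ⧸ H) × α → ℚ := fun e =>
    ∑ x ∈ (treeEdges α (j + 1)).filter (fun x => ed H (mk x.1) x.2 = e),
      if x.2.2 then F (x.1 ++ [x.2]) else - F (x.1 ++ [x.2])
  have hc : ∀ p y, p.length < j + 1 → FreeGroup.IsReduced (p ++ [y]) →
      edgeVal H c (mk p) y = F (p ++ [y]) := by
    intro p y h1 h2
    have h3 : (treeEdges α (j + 1)).filter (fun x => ed H (mk x.1) x.2 = ed H (mk p) y) =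
        {(p, y)} := by
      ext x
      simp only [Finset.mem_filter, Finset.mem_singleton]
      constructor
      · exact fun h => hG.ed_inj h.1 (mem_treeEdges.2 ⟨h1, h2⟩) h.2
      · rintro rfl
        exact ⟨mem_treeEdges.2 ⟨h1, h2⟩, rfl⟩
    simp only [edgeVal, c, h3, Finset.sum_singleton]
    split_ifs <;> simp
  refine ⟨c, fun u => ?_⟩
  induction u using List.reverseRecOn with
  | nil =>
    intro _ _
    rw [← one_eq_mk, pv_one, hF _ (by simp)]
  | append_singleton p y ih =>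
    intro h1 h2
    have h3 : p.length ≤ j := by simpa using h2
    rw [mk_concat, pv_mul_letter, ih (isReduced_left h1) (by omega), hF p h3,
      hc p y (by omega) h1, zero_add]

lemma psiE_surj (s : ℕ) (hs : Fintype.card α = s + 1) (z₀ : α × Bool) (A : Finset (FreeGroup α))
    (hA : A ∈ MaxSet α (2 * (j + 1)) (Fintype.card (IE j z₀))) :
    ∃ d : DE j z₀, psiE d ⊆ A := by
  classical
  obtain ⟨hn, hf, hc⟩ := hA
  obtain ⟨H, hH⟩ : ∃ H, H = Subgroup.closure (A : Set (FreeGroup α)) := ⟨_, rfl⟩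
  obtain ⟨hfi, hG⟩ := tight_all s (j + 1) _ hs (by omega) A hn hf H hH
    (Or.inr ⟨rfl, by rw [hc, card_IE, hs, pow_succ]⟩)
  have hAH : ∀ a ∈ A, a ∈ H := fun a ha => hH ▸ Subgroup.subset_closure ha
  have huniq : ∀ {z : α × Bool} (a a' : pre j z), pr (a.1 ++ [z]) (a'.1 ++ [z]) ∈ H → a = a' := by
    intro z a a' h
    refine Subtype.ext (hG.eq_of_mem (isReduced_left (redT a)) (isReduced_left (redT a'))
      (by rw [lenT, lenT]; omega) ?_)
    simp only [pr, mk_concat] at h
    convert h using 1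
    group
  have h1 : ∀ (z : α × Bool) (ρ : pre j z₀), ∃ a : pre j z, pr (a.1 ++ [z]) (ρ.1 ++ [z₀]) ∈ H :=
    fun z ρ => exists_partner A H hH hn hG (redT ρ) (by simp [lenT]) z
  choose γ hγ using h1
  have hγinj : ∀ z, Function.Injective (γ z) := by
    intro z ρ ρ' h
    have m1 := hγ z ρ
    have m2 := hγ z ρ'
    rw [← h] at m2
    have := mul_mem (inv_mem m1) m2
    rw [pr_inv, pr_mul] at this
    exact huniq _ _ this
  let β : BE j z₀ := fun z => Equiv.ofBijective _
    ((Fintype.bijective_iff_injective_and_card _).2 ⟨hγinj z.1, by simp [card_pre]⟩)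
  have hβ : ∀ y : YE j z₀, pr (W β y) (W β (y.1, z₀)) ∈ H := by
    rintro ⟨ρ, z⟩
    by_cases hz : z = z₀
    · simp only [hz, pr, mul_inv_cancel]
      exact one_mem _
    · rw [W_root]
      simp only [W, U, hz, ↓reduceDIte]
      exact hγ z ρ
  have hcls : ∀ y y' : YE j z₀, pr (W β y) (W β y') ∈ H → y.1 = y'.1 := by
    intro y y' h
    have := mul_mem (mul_mem (inv_mem (hβ y)) h) (hβ y')
    rw [pr_inv, pr_mul, pr_mul, W_root, W_root] at this
    exact huniq _ _ this
  have hgen : ∀ a ∈ A, ∃ y y' : YE j z₀, a = pr (W β y) (W β y') := by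
    intro a ha
    obtain ⟨p, z, v, h1, h2, h3, h4, rfl⟩ := exists_gn a j (j + 1) (by rw [hn a ha]; omega)
    obtain ⟨ρ, hρ⟩ := W_surj β (mem_pre.2 ⟨h1, h3⟩)
    rcases List.eq_nil_or_concat v with rfl | ⟨b, w, rfl⟩
    · simp at h2
    · rw [List.concat_eq_append] at h2 h4 ⊢
      obtain ⟨ρ', hρ'⟩ := W_surj β (a := b) (z := w)
        (mem_pre.2 ⟨by simpa using h2, isReduced_left h4⟩)
      exact ⟨(ρ, z), (ρ', w), by rw [hρ, hρ', pr, gn, mk_concat p]⟩
  let Adj : pre j z₀ → α × Bool → α × Bool → Prop := fun ρ z w =>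
    ∃ b, sg b (pr (W β (ρ, z)) (W β (ρ, w))) ∈ A
  have hconn : ∀ ρ z, Relation.ReflTransGen (Adj ρ) z z₀ := by
    intro ρ z
    let F : List (α × Bool) → ℚ := fun u =>
      if ∃ w, Relation.ReflTransGen (Adj ρ) w z₀ ∧ u = W β (ρ, w) then 1 else 0
    obtain ⟨c, hc⟩ := exists_cochain_top hG F (fun u hu => if_neg (by
      rintro ⟨w, -, rfl⟩
      rw [W_len] at hu
      omega))
    have hval : ∀ y y' : YE j z₀, pr (W β y) (W β y') ∈ H →
        pv H c (pr (W β y) (W β y')) = F (W β y) - F (W β y') := by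
      intro y y' h
      have := pv_mul_left c h (mk (W β y'))
      rw [pr, inv_mul_cancel_right, hc _ (W_red β y) (W_len β y).le,
        hc _ (W_red β y') (W_len β y').le] at this
      rw [pr]
      linarith
    have hF : ∀ y : YE j z₀, (∃ w, Relation.ReflTransGen (Adj ρ) w z₀ ∧ W β y = W β (ρ, w)) ↔
        y.1 = ρ ∧ Relation.ReflTransGen (Adj ρ) y.2 z₀ := by
      intro y
      constructor
      · rintro ⟨w, h1, h2⟩
        obtain rfl := W_inj β h2
        exact ⟨rfl, h1⟩
      · rintro ⟨rfl, h⟩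
        exact ⟨y.2, h, rfl⟩
    have hzero : ∀ a ∈ (A : Set (FreeGroup α)), pv H c a = 0 := by
      intro a ha
      obtain ⟨⟨σ, x⟩, ⟨σ', x'⟩, rfl⟩ := hgen a ha
      obtain rfl : σ = σ' := hcls _ _ (hAH _ ha)
      rw [hval _ _ (hAH _ ha), sub_eq_zero]
      simp only [F, hF]
      by_cases hσ : σ = ρ
      · subst hσ
        have : Relation.ReflTransGen (Adj σ) x z₀ ↔ Relation.ReflTransGen (Adj σ) x' z₀ :=
          ⟨fun h => h.head ⟨false, by rw [sg_false, pr_inv]; exact ha⟩,
            fun h => h.head ⟨true, ha⟩⟩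
        simp only [this]
      · simp [hσ]
    have h3 := hval _ _ (hβ (ρ, z))
    rw [pv_eq_zero c hH hzero (hβ (ρ, z))] at h3
    simp only [F, hF, true_and, Relation.ReflTransGen.refl, ↓reduceIte] at h3
    by_contra hne
    rw [if_neg hne] at h3
    norm_num at h3
  have h2 := fun ρ => exists_parent (Adj ρ) z₀ (hconn ρ)
  choose t ht1 ht2 ht3 using h2
  have h3 : ∀ y : IE j z₀, ∃ b, sg b (genE β (fun ρ => ⟨t ρ, ht1 ρ, ht2 ρ⟩) y) ∈ A :=
    fun y => ht3 y.1.1 y.1.2 y.2
  choose ε hε using h3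
  refine ⟨(β, fun ρ => ⟨t ρ, ht1 ρ, ht2 ρ⟩, ε), ?_⟩
  intro g hg
  obtain ⟨y, -, rfl⟩ := Finset.mem_image.1 hg
  exact hε y

theorem count_even (s j : ℕ) (hs : Fintype.card α = s + 1) :
    (MaxSet α (2 * (j + 1)) ((2 * (s + 1) - 1) ^ (j + 1))).ncard =
      ((2 * (s + 1) - 1) ^ j).factorial ^ (2 * (s + 1) - 1) *
        ((2 * (s + 1)) ^ (2 * (s + 1) - 2) * 2 ^ (2 * (s + 1) - 1)) ^ ((2 * (s + 1) - 1) ^ j) := by
  classical
  obtain ⟨x₀⟩ : Nonempty α := Fintype.card_pos_iff.1 (by omega)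
  let _ : Fintype (BE j (x₀, true)) := inferInstance
  let _ : Fintype (pre j (x₀, true) → Tr (x₀, true)) := inferInstance
  let _ : Fintype (IE j (x₀, true) → Bool) := inferInstance
  have h := ncard_eq_of_param (psiE (α := α) (j := j) (z₀ := (x₀, true))) psiE_mem
    psiE_injective (psiE_surj s hs _)
  have hL : Fintype.card (α × Bool) = 2 * (s + 1) := by simp [hs, mul_comm]
  rw [Fintype.card_prod, Fintype.card_prod, Fintype.card_fun, Fintype.card_fun,
    Fintype.card_bool, card_BE, card_IE, card_Tr _ (by omega), Fintype.card_coe, card_pre,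
    hL, hs, ← pow_succ] at h
  rw [h, mul_pow _ (2 ^ (2 * (s + 1) - 1)), ← pow_mul 2, pow_succ']

end Pool.Agent.MP_689404_al.X
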