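import Mathlib
import Pool.Agent.MP_689404_al.X.Even2

/-!
# Maximum size means the known value
-/

set_option autoImplicit false

namespace Pool.Agent.MP_689404_al.X

open FreeGroup Pool.Agent.MP_689404_al

variable {α : Type} [DecidableEq α] [Fintype α]

lemma max_iff_odd (s k : ℕ) (hs : Fintype.card α = s + 1) (A : Finset (FreeGroup α))
    (hn : ∀ x ∈ A, FreeGroup.norm x = 2 * k + 1)
    (hA : Function.Injective (FreeGroup.lift fun x : A => (x : FreeGroup α))) :
    (∀ B : Finset (FreeGroup α), (∀ g ∈ B, FreeGroup.norm g = 2 * k + 1) →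
      Function.Injective (FreeGroup.lift fun b : B => (b : FreeGroup α)) → B.card ≤ A.card) ↔
    A.card = (s + 1) * (2 * (s + 1) - 1) ^ k := by
  constructor
  · intro h
    obtain ⟨B, h1, h2, h3⟩ := lower_odd (α := α) k
    rw [hs] at h3
    exact le_antisymm ((upper s k _ hs A hn hA).1 rfl) (h3 ▸ h B h1 h2)
  · intro h B h1 h2
    rw [h]
    exact (upper s k _ hs B h1 h2).1 rfl

lemma max_iff_even (s j : ℕ) (hs : Fintype.card α = s + 1) (A : Finset (FreeGroup α))
    (hn : ∀ x ∈ A, FreeGroup.norm x = 2 * (j + 1))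
    (hA : Function.Injective (FreeGroup.lift fun x : A => (x : FreeGroup α))) :
    (∀ B : Finset (FreeGroup α), (∀ g ∈ B, FreeGroup.norm g = 2 * (j + 1)) →
      Function.Injective (FreeGroup.lift fun b : B => (b : FreeGroup α)) → B.card ≤ A.card) ↔
    A.card = (2 * (s + 1) - 1) ^ (j + 1) := by
  constructor
  · intro h
    obtain ⟨x₀⟩ : Nonempty α := Fintype.card_pos_iff.1 (by omega)
    obtain ⟨B, h1, h2, h3⟩ := lower_even x₀ j
    rw [hs] at h3
    exact le_antisymm ((upper s (j + 1) _ hs A hn hA).2 rfl) (h3 ▸ h B h1 h2)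
  · intro h B h1 h2
    rw [h]
    exact (upper s (j + 1) _ hs B h1 h2).2 rfl

end Pool.Agent.MP_689404_al.X
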